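import Mathlib

/-! Approximation by trigonometric polynomials on a small part of the period. -/

set_option autoImplicit false

namespace Pool.Agent.P.MP_2fa38d_an.NB

open Finset Complex

/-- polynomial in `exp (i z / L) - 1` -/
noncomputable def tp (a : ℕ → ℂ) (n : ℕ) (L : ℝ) (z : ℂ) : ℂ :=
  ∑ j ∈ range (n + 1), a j * (exp (I * z / L) - 1) ^ j

theorem tp_diff (a : ℕ → ℂ) (n : ℕ) (L : ℝ) : Differentiable ℂ (tp a n L) := by
  unfold tp; fun_prop

theorem geo2 {t : ℝ} (ht : 2 ≤ t) (n : ℕ) : ∑ j ∈ range (n + 1), t ^ j ≤ 2 * t ^ n := by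
  induction n with
  | zero => simp
  | succ n ih =>
    rw [sum_range_succ, pow_succ]
    nlinarith [pow_pos (by linarith : 0 < t) n]

theorem apx {Θ : ℂ → ℂ} (hΘ : Differentiable ℂ Θ) {L E : ℝ} (hL : 0 < L)
    (hE : ∀ y : ℂ, ‖y‖ ≤ L → ‖Θ y‖ ≤ E) (n : ℕ) :
    ∃ a : ℕ → ℂ, (∀ z : ℂ, ‖z‖ ≤ L / 16 → ‖Θ z - tp a n L z‖ ≤ E * (1 / 4) ^ n) ∧
      ∀ (z : ℂ) (ρ : ℝ), 1 ≤ ρ → ‖exp (I * z / L) - 1‖ ≤ ρ → ‖tp a n L z‖ ≤ 2 * E * (2 * ρ) ^ n := by
  let ψ : ℂ → ℂ := fun w => Θ (-I * L * log (1 + w))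
  have E0 : 0 ≤ E := (norm_nonneg _).trans (hE 0 (by simpa using hL.le))
  have hψ : DifferentiableOn ℂ ψ (Metric.ball 0 1) := fun w hw =>
    ((hΘ _).comp w ((((differentiableAt_id.const_add 1).clog
      (mem_slitPlane_of_norm_lt_one (mem_ball_zero_iff.1 hw)))).const_mul _)).differentiableWithinAt
  let a : ℕ → ℂ := fun j => (j.factorial : ℂ)⁻¹ * iteratedDeriv j ψ 0
  have ha : ∀ j, ‖a j‖ ≤ E * 2 ^ j := fun j => by
    have := norm_iteratedDeriv_le_of_forall_mem_sphere_norm_le (C := E) j one_half_pos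
      (hψ.diffContOnCl_ball (Metric.closedBall_subset_ball one_half_lt_one)) fun w hw => by
        rw [mem_sphere_zero_iff_norm] at hw
        refine hE _ ?_
        have := norm_log_one_add_half_le_self hw.le
        rw [hw] at this
        simp only [norm_mul, norm_neg, norm_I, norm_real, Real.norm_of_nonneg hL.le]
        nlinarith
    have f0 : (0 : ℝ) < j.factorial := by exact_mod_cast j.factorial_pos
    rw [norm_mul, norm_inv, norm_natCast, inv_mul_le_iff₀ f0]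
    rwa [one_div, inv_pow, div_inv_eq_mul, mul_assoc] at this
  refine ⟨a, fun z hz => ?_, fun z ρ h1 h2 => ?_⟩
  · have L0 : (L : ℂ) ≠ 0 := by exact_mod_cast hL.ne'
    have h1 : ‖I * z / L‖ ≤ 1 / 16 := by
      rw [norm_div, norm_mul, norm_I, norm_real, Real.norm_of_nonneg hL.le, div_le_iff₀ hL]
      linarith
    have h2 : ‖exp (I * z / L) - 1‖ ≤ 1 / 8 := by
      linarith [norm_exp_sub_one_le (h1.trans (by norm_num))]
    have h3 := abs_le.1 ((abs_im_le_norm _).trans h1)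
    have h4 : ψ (exp (I * z / L) - 1) = Θ z := by
      simp only [ψ, add_sub_cancel]
      rw [log_exp (by linarith [Real.pi_gt_three]) (by linarith [Real.pi_gt_three])]
      congr 1
      field_simp
      simp
    have h5 := hasSum_taylorSeries_on_ball hψ (mem_ball_zero_iff.2 (h2.trans_lt (by norm_num)))
    rw [h4] at h5
    unfold tp
    generalize exp (I * z / L) - 1 = w at *
    have h6 : HasSum (fun j => a j * w ^ j) (Θ z) := by
      have : (fun j => a j * w ^ j) =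
          fun n : ℕ => (n.factorial : ℂ)⁻¹ • (w - 0) ^ n • iteratedDeriv n ψ 0 :=
        funext fun j => by simp only [a, sub_zero, smul_eq_mul]; ring
      rwa [this]
    have h7 := (hasSum_geometric_of_lt_one (r := 1 / 4) (by norm_num) (by norm_num)).mul_left
      (E * (1 / 4) ^ (n + 1))
    refine (((hasSum_nat_add_iff' (n + 1)).2 h6).norm_le_of_bounded h7 fun j => ?_).trans ?_
    · rw [norm_mul, norm_pow]
      calc _ ≤ E * 2 ^ (j + (n + 1)) * (1 / 8) ^ (j + (n + 1)) := by gcongr; exact ha _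
        _ = _ := by rw [mul_assoc, ← mul_pow, mul_assoc, ← pow_add, add_comm j]; norm_num
    · rw [pow_succ]
      have : 0 ≤ E * (1 / 4) ^ n := by positivity
      norm_num
      linarith
  · refine (norm_sum_le_of_le _ (n := fun j => E * (2 * ρ) ^ j) fun j _ => ?_).trans ?_
    · rw [norm_mul, norm_pow, mul_pow, ← mul_assoc]
      gcongr
      exact ha j
    · rw [← mul_sum]
      linarith [mul_le_mul_of_nonneg_left (geo2 (t := 2 * ρ) (by linarith) n) E0]

theorem pow_le_exp {t c : ℝ} (t0 : 0 ≤ t) (h : t ≤ Real.exp c) (n : ℕ) :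
    t ^ n ≤ Real.exp (n * c) := by
  rw [Real.exp_nat_mul]; gcongr

theorem quarter : (1 / 4 : ℝ) ≤ Real.exp (-1) := by
  rw [Real.exp_neg, ← one_div]
  exact one_div_le_one_div_of_le (Real.exp_pos 1) (by linarith [Real.exp_one_lt_d9])

theorem norm_exp_le {z : ℂ} {c : ℝ} (h : ‖z‖ ≤ c) : ‖exp z‖ ≤ Real.exp c :=
  (norm_exp_le_exp_norm z).trans (Real.exp_le_exp.2 h)

theorem approx (x L1 L : ℕ) (h1 : 1 ≤ L1) (h2 : L1 ≤ L) (hx : 16 * L ^ 2 ≤ x) :
    ∃ a : ℕ → ℂ, ∀ z : ℂ,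
      (‖z‖ ≤ L1 / 16 → ‖exp (x * z) - exp (x ^ 2 * z) * tp a (x ^ 3) L z‖ ≤
        2 * Real.exp (-(3 * x))) ∧
      (‖z‖ ≤ L / 16 → |z.im| ≤ 1 → ‖exp (x ^ 2 * z) * tp a (x ^ 3) L z‖ ≤
        3 * Real.exp (x * (4 * L1 + 9))) := by
  have l1 : (1 : ℝ) ≤ L1 := by exact_mod_cast h1
  have l2 : (L1 : ℝ) ≤ L := by exact_mod_cast h2
  have l3 : 16 * (L : ℝ) ^ 2 ≤ x := by exact_mod_cast hx
  have x0 : (0 : ℝ) ≤ x := x.cast_nonneg
  have e1 := Real.exp_one_gt_d9
  have e2 := Real.exp_one_lt_d9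
  obtain ⟨b, b1, b2⟩ := apx (Θ := fun y => exp (x * y)) (by fun_prop) (L := L1)
    (E := Real.exp (x * L1)) (by linarith) (fun y hy => norm_exp_le (by
      rw [norm_mul, norm_natCast]; gcongr)) ((L1 + 3) * x)
  have hw : ∀ (y : ℂ) (c : ℝ), |y.im| ≤ c → ‖exp (I * y / (L1 : ℝ)) - 1‖ ≤ Real.exp c + 1 :=
    fun y c h => (norm_sub_le _ _).trans (by
      rw [norm_exp, norm_one, div_ofReal_re]
      gcongr
      have := abs_le.1 h
      rw [div_le_iff₀ (by linarith)]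
      simp only [mul_re, I_re, I_im]
      nlinarith [abs_nonneg y.im])
  have hq : ∀ y : ℂ, ‖y‖ ≤ L → ‖exp (x ^ 2 * y)‖ ≤ Real.exp (x ^ 2 * L) ∧
      ‖exp (-(x ^ 2 * y))‖ ≤ Real.exp (x ^ 2 * L) := fun y hy => by
    constructor <;> refine norm_exp_le ?_ <;>
      simp only [norm_neg, norm_mul, norm_pow, norm_natCast] <;> gcongr
  obtain ⟨a, a1, -⟩ := apx (Θ := fun y => exp (-(x ^ 2 * y)) * tp b ((L1 + 3) * x) L1 y)
    ((by fun_prop : Differentiable ℂ fun y : ℂ => exp (-(x ^ 2 * y))).mul (tp_diff _ _ _)) (L := L)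
    (E := Real.exp (x ^ 2 * L) * (2 * Real.exp (x * L1) *
      Real.exp ((((L1 + 3) * x : ℕ) : ℝ) * (L + 2)))) (by linarith) (fun y hy => by
      rw [norm_mul]
      have l4 : 1 ≤ Real.exp L := Real.one_le_exp (by linarith)
      refine mul_le_mul (hq y hy).2 ((b2 y _ (by linarith)
        (hw y L ((abs_im_le_norm _).trans hy))).trans ?_) (norm_nonneg _) (by positivity)
      refine mul_le_mul_of_nonneg_left (pow_le_exp (by positivity) ?_ _) (by positivity)
      rw [Real.exp_add, show (2 : ℝ) = 1 + 1 by norm_num, Real.exp_add]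
      nlinarith [mul_le_mul e1.le e1.le (by norm_num) (by positivity)]) (x ^ 3)
  have a2 : ∀ z : ℂ, ‖z‖ ≤ L / 16 → ‖tp b ((L1 + 3) * x) L1 z -
      exp (x ^ 2 * z) * tp a (x ^ 3) L z‖ ≤ Real.exp (-(3 * x)) := fun z hz => by
    have h3 : tp b ((L1 + 3) * x) L1 z - exp (x ^ 2 * z) * tp a (x ^ 3) L z = exp (x ^ 2 * z) *
        (exp (-(x ^ 2 * z)) * tp b ((L1 + 3) * x) L1 z - tp a (x ^ 3) L z) := by
      rw [mul_sub, ← mul_assoc, ← exp_add]; simp
    rw [h3, norm_mul]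
    refine (mul_le_mul (hq z (by linarith)).1 (a1 z hz) (norm_nonneg _) (by positivity)).trans ?_
    have h4 := pow_le_exp (by norm_num) quarter (x ^ 3)
    calc _ ≤ Real.exp (x ^ 2 * L) * (Real.exp (x ^ 2 * L) * (Real.exp 1 * Real.exp (x * L1) *
          Real.exp ((((L1 + 3) * x : ℕ) : ℝ) * (L + 2))) * Real.exp ((x ^ 3 : ℕ) * (-1))) := by
          gcongr; linarith
      _ ≤ _ := by
        simp only [← Real.exp_add]
        push_cast
        refine Real.exp_le_exp.2 ?_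
        have l0 : (1 : ℝ) ≤ L := by linarith
        have k1 : (L1 + 3) * (L + 2) + L1 + 3 ≤ (x : ℝ) := by nlinarith
        have k2 : 2 * L + 2 ≤ (x : ℝ) := by nlinarith
        have k3 := mul_le_mul_of_nonneg_left k1 x0
        have k4 := mul_le_mul_of_nonneg_left k2 (sq_nonneg (x : ℝ))
        nlinarith
  refine ⟨a, fun z => ⟨fun hz => ?_, fun hz hi => ?_⟩⟩
  · have h3 : Real.exp (x * L1) * (1 / 4) ^ ((L1 + 3) * x) ≤ Real.exp (-(3 * x)) := by
      refine (mul_le_mul_of_nonneg_left (pow_le_exp (by norm_num) quarter _)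
        (by positivity)).trans_eq ?_
      rw [← Real.exp_add]; push_cast; ring_nf
    linarith [norm_sub_le_norm_sub_add_norm_sub (exp (x * z)) (tp b ((L1 + 3) * x) L1 z)
      (exp (x ^ 2 * z) * tp a (x ^ 3) L z), b1 z hz, a2 z (by linarith)]
  · have h3 := b2 z 4 (by norm_num) ((hw z 1 hi).trans (by linarith))
    have h4 : (2 * 4 : ℝ) ^ ((L1 + 3) * x) ≤ _ := pow_le_exp (c := 3) (by norm_num) (by
      rw [show (3 : ℝ) = 1 + 1 + 1 by norm_num, Real.exp_add, Real.exp_add]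
      nlinarith [mul_le_mul e1.le e1.le (by norm_num) (by positivity)]) _
    have h5 : Real.exp (x * L1) * Real.exp ((((L1 + 3) * x : ℕ) : ℝ) * 3) =
        Real.exp (x * (4 * L1 + 9)) := by
      rw [← Real.exp_add]; push_cast; ring_nf
    have h6 : Real.exp (-(3 * x)) ≤ Real.exp (x * (4 * L1 + 9)) :=
      Real.exp_le_exp.2 (by nlinarith)
    have h7 := norm_sub_norm_le (exp (x ^ 2 * z) * tp a (x ^ 3) L z) (tp b ((L1 + 3) * x) L1 z)
    rw [norm_sub_rev] at h7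
    nlinarith [a2 z hz, mul_le_mul_of_nonneg_left h4 (Real.exp_pos (x * L1)).le]

end Pool.Agent.P.MP_2fa38d_an.NB
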