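import Pool.Agent.P.MP_2fa38d_an.NB.Om

/-! Bases are absolute when the widths decay fast. -/

set_option autoImplicit false

namespace Pool.Agent.P.MP_2fa38d_an.NB

open Finset Filter Topology

variable {V : Type} [AddCommGroup V] [Module ℂ V] {p : ℕ → Seminorm ℂ V} {e : ℕ → V}

/-- cubic decay of the widths -/
def Nuc (p : ℕ → Seminorm ℂ V) : Prop := ∀ q, ∃ r c : ℕ, q ≤ r ∧ ∀ M : ℕ, 0 < M →
  ∃ (ι : Type) (_ : Fintype ι) (Λ : V →ₗ[ℂ] (ι → ℂ)), Fintype.card ι ≤ c * M ∧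
    ∀ x, Λ x = 0 → (M : ℝ) ^ 3 * p q x ≤ p r x

theorem layer {ρ A : ℝ} (hA : 0 ≤ A) (h : ρ ≤ A) (K : ℕ) : ρ ≤ A * (1 / 4) ^ K +
    ∑ m ∈ range K, if A * (1 / 4) ^ (m + 1) < ρ then A * (1 / 4) ^ m else 0 := by
  induction K with
  | zero => simpa using h
  | succ K ih =>
    rw [sum_range_succ]
    have h1 : 0 ≤ ∑ m ∈ range K, if A * (1 / 4) ^ (m + 1) < ρ then A * (1 / 4) ^ m else 0 :=
      sum_nonneg fun m _ => by split_ifs <;> positivity
    have h2 : 0 ≤ A * (1 / 4) ^ (K + 1) := by positivity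
    split_ifs with h3
    · linarith
    · linarith [not_lt.1 h3]

theorem dm (hm : Monotone p) (hn : Nuc p) {ξ : V →ₗ[ℂ] (ℕ → ℂ)}
    (h1 : ∀ j, ξ (e j) = Pi.single j 1)
    (h2 : ∀ n, ∃ (a : ℕ) (C : ℝ), 1 ≤ C ∧ ∀ x j, ‖ξ x j‖ * p n (e j) ≤ C * p a x) (n : ℕ) :
    ∃ (a : ℕ) (C : ℝ), 1 ≤ C ∧ ∀ x N, ∑ j ∈ range N, ‖ξ x j‖ * p n (e j) ≤ C * p a x := by
  obtain ⟨q, C, hC, h3⟩ := h2 n
  obtain ⟨r, c, hr, h4⟩ := hn q
  obtain ⟨a, D, hD, h5⟩ := h2 r
  have h6 : ∀ j, p n (e j) ≤ C * p r (e j) := fun j => by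
    have := h3 (e j) j
    rw [h1, Pi.single_eq_same, norm_one, one_mul] at this
    exact this.trans (mul_le_mul_of_nonneg_left (hm hr _) (by linarith))
  let ρ : ℕ → ℝ := fun j => p n (e j) / p r (e j)
  have ρ1 : ∀ j, p n (e j) = ρ j * p r (e j) := fun j => by
    rcases (apply_nonneg (p r) (e j)).eq_or_lt with h | h
    · have := h6 j
      rw [← h, mul_zero] at this ⊢
      exact le_antisymm this (apply_nonneg _ _)
    · exact (div_mul_cancel₀ _ h.ne').symm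
  have ρ0 : ∀ j, 0 ≤ ρ j := fun j => div_nonneg (apply_nonneg _ _) (apply_nonneg _ _)
  have c0 : (0 : ℝ) ≤ c := c.cast_nonneg
  have A0 : 0 < C * (c + 1) := by positivity
  have ρ2 : ∀ j, ρ j ≤ C * (c + 1) := fun j =>
    (div_le_of_le_mul₀ (apply_nonneg _ _) (by linarith) (h6 j)).trans (by nlinarith)
  have cnt : ∀ m N, #{j ∈ range N | C * (c + 1) * (1 / 4) ^ m < ρ j} ≤ c * 2 ^ m := by
    intro m N
    by_contra hc
    obtain ⟨J, hJ, hJc⟩ := exists_subset_card_eq (Nat.succ_le_of_lt (not_le.1 hc))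
    obtain ⟨ι, _, Λ, h7, h8⟩ := h4 (2 ^ m) (by positivity)
    let T : (J → ℂ) →ₗ[ℂ] V := ∑ j : J, (LinearMap.proj j).smulRight (e j)
    have hT : ∀ u, T u = ∑ j : J, u j • e j := fun u => by simp [T, LinearMap.sum_apply]
    obtain ⟨u, hu, u0⟩ := Submodule.exists_mem_ne_zero_of_ne_bot
      ((Λ.comp T).ker_ne_bot_of_finrank_lt (by simp; omega))
    have h9 := h8 (T u) hu
    have hξ : ∀ j : J, ξ (T u) j = u j := fun j => by
      rw [hT, map_sum, Finset.sum_apply, sum_eq_single j]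
      · simp [h1]
      · intro i _ hi
        simp [h1, Pi.single_eq_of_ne (Subtype.coe_injective.ne hi.symm)]
      · simp
    set t := C * (c + 1) * (1 / 4) ^ m with ht
    have t0 : 0 < t := by positivity
    have lt : ∀ j : J, t * p r (e j) < p n (e j) := fun j => by
      have h := (mem_filter.1 (hJ j.2)).2
      have h' : 0 < p r (e j) := by
        by_contra h'
        have : ρ j = 0 := by
          simp only [ρ, le_antisymm (not_lt.1 h') (apply_nonneg _ _), div_zero]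
        linarith
      rw [ρ1]
      exact mul_lt_mul_of_pos_right h h'
    obtain ⟨j0, hj⟩ := Function.ne_iff.1 u0
    have k1 : t * p r (T u) < ∑ j : J, ‖u j‖ * p n (e j) := by
      rw [hT]
      refine (mul_le_mul_of_nonneg_left (sn_sum _ _ _) t0.le).trans_lt ?_
      rw [mul_sum]
      simp only [map_smul_eq_mul, mul_left_comm t]
      exact sum_lt_sum (fun j _ => mul_le_mul_of_nonneg_left (lt j).le (norm_nonneg _))
        ⟨j0, mem_univ _, mul_lt_mul_of_pos_left (lt j0) (norm_pos_iff.2 hj)⟩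
    have k2 : ∑ j : J, ‖u j‖ * p n (e j) ≤ (c * 2 ^ m + 1) * (C * p q (T u)) := by
      refine (sum_le_card_nsmul _ _ _ fun j _ => hξ j ▸ h3 (T u) j).trans_eq ?_
      simp [hJc]
    have k3 : (c * 2 ^ m + 1) * (C * p q (T u)) ≤ t * (((2 ^ m : ℕ) : ℝ) ^ 3 * p q (T u)) := by
      have k4 : (1 : ℝ) ≤ 2 ^ m := one_le_pow₀ one_le_two
      have k5 : t * ((2 ^ m : ℕ) : ℝ) ^ 3 = (c + 1) * 2 ^ m * C := by
        have : ((1 : ℝ) / 4) ^ m * (2 ^ m) ^ 2 = 1 := by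
          rw [← pow_mul, mul_comm m, pow_mul, ← mul_pow]; norm_num
        push_cast
        linear_combination (C * (c + 1) * 2 ^ m) * this
      rw [← mul_assoc t, k5, ← mul_assoc]
      have := apply_nonneg (p q) (T u)
      gcongr
      linarith
    linarith [mul_le_mul_of_nonneg_left h9 t0.le]
  have sm : ∀ N, ∑ j ∈ range N, ρ j ≤ C * (c + 1) * (4 * c + 1) := fun N => by
    refine (sum_le_sum fun j _ => layer A0.le (ρ2 j) N).trans ?_
    rw [sum_add_distrib, sum_comm]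
    have k1 : ∑ m ∈ range N, ∑ j ∈ range N, (if C * (c + 1) * (1 / 4) ^ (m + 1) < ρ j then
        C * (c + 1) * (1 / 4) ^ m else 0) ≤ ∑ m ∈ range N, C * (c + 1) * (2 * c) * (1 / 2) ^ m := by
      refine sum_le_sum fun m _ => ?_
      rw [← sum_filter, sum_const, nsmul_eq_mul]
      have k2 : (#{j ∈ range N | C * (c + 1) * (1 / 4) ^ (m + 1) < ρ j} : ℝ) ≤ c * 2 ^ (m + 1) := by
        exact_mod_cast cnt (m + 1) N
      refine (mul_le_mul_of_nonneg_right k2 (by positivity)).trans_eq ?_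
      have : ((1 : ℝ) / 4) ^ m * 2 ^ m = (1 / 2) ^ m := by rw [← mul_pow]; norm_num
      linear_combination (C * (c + 1) * (2 * c)) * this
    rw [← mul_sum] at k1
    have k3 := mul_le_mul_of_nonneg_left (geo_le N) (by positivity : 0 ≤ C * (c + 1) * (2 * c))
    have k4 : (N : ℝ) * (1 / 4) ^ N ≤ 1 := by
      rw [one_div, inv_pow, ← div_eq_mul_inv, div_le_one (by positivity)]
      exact_mod_cast (Nat.lt_pow_self (by norm_num)).le
    rw [sum_const, card_range, nsmul_eq_mul]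
    nlinarith [mul_le_mul_of_nonneg_left k4 A0.le]
  refine ⟨a, C * (c + 1) * (4 * c + 1) * D, ?_, fun x N => ?_⟩
  · exact one_le_mul_of_one_le_of_one_le (one_le_mul_of_one_le_of_one_le
      (one_le_mul_of_one_le_of_one_le hC (by linarith)) (by linarith)) hD
  · have k0 : 0 ≤ D * p a x := mul_nonneg (by linarith) (apply_nonneg _ _)
    rw [mul_assoc _ D]
    refine le_trans (sum_le_sum fun j _ => ?_) (sum_mul _ ρ _ ▸ mul_le_mul_of_nonneg_right (sm N) k0)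
    rw [ρ1, mul_left_comm]
    exact mul_le_mul_of_nonneg_left (h5 x j) (ρ0 j)

/-- the distributive inequality -/
theorem distrib {ξ : V →ₗ[ℂ] (ℕ → ℂ)} (h : ∀ x, Cv p e (ξ x) x) (u : V →ₗ[ℂ] ℂ)
    {a b c a' b' c' : ℕ} {A B C N η θ : ℝ} (N0 : 0 ≤ N) (η0 : 0 ≤ η) (θ0 : 0 ≤ θ) (θ1 : θ ≤ 1)
    (ha : ∀ x N, ∑ j ∈ range N, ‖ξ x j‖ * p a (e j) ≤ A * p a' x)
    (hb : ∀ x N, ∑ j ∈ range N, ‖ξ x j‖ * p b (e j) ≤ B * p b' x)
    (hc : ∀ x N, ∑ j ∈ range N, ‖ξ x j‖ * p c (e j) ≤ C * p c' x)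
    (u1 : ∀ x, ‖u x‖ ≤ N * (p a x + η * p c x))
    (u2 : ∀ x, ‖u x‖ ≤ N * (θ * (p b x + η * p c x))) (x y : V) :
    ‖u (x + y)‖ ≤ N * (2 * (A * p a' x) + 2 * θ * (B * p b' y) + η * (C * p c' (x + y))) := by
  have k1 : ∀ j, ‖ξ (x + y) j‖ * ‖u (e j)‖ ≤ N * (2 * (‖ξ x j‖ * p a (e j)) +
      2 * θ * (‖ξ y j‖ * p b (e j)) + η * (‖ξ (x + y) j‖ * p c (e j))) := fun j => by
    have k2 : ‖ξ (x + y) j‖ ≤ ‖ξ x j‖ + ‖ξ y j‖ := by rw [map_add]; exact norm_add_le _ _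
    have := apply_nonneg (p a) (e j)
    have := apply_nonneg (p b) (e j)
    have := apply_nonneg (p c) (e j)
    rcases le_total ‖ξ y j‖ ‖ξ x j‖ with k | k
    · refine (mul_le_mul_of_nonneg_left (u1 _) (norm_nonneg _)).trans ?_
      rw [mul_left_comm]
      refine mul_le_mul_of_nonneg_left ?_ N0
      have : ‖ξ (x + y) j‖ * p a (e j) ≤ 2 * ‖ξ x j‖ * p a (e j) := by gcongr; linarith
      have : 0 ≤ 2 * θ * (‖ξ y j‖ * p b (e j)) := by positivity
      linarith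
    · refine (mul_le_mul_of_nonneg_left (u2 _) (norm_nonneg _)).trans ?_
      rw [mul_left_comm]
      refine mul_le_mul_of_nonneg_left ?_ N0
      have : θ * (‖ξ (x + y) j‖ * p b (e j)) ≤ θ * (2 * ‖ξ y j‖ * p b (e j)) := by gcongr; linarith
      have : θ * (η * (‖ξ (x + y) j‖ * p c (e j))) ≤ 1 * (η * (‖ξ (x + y) j‖ * p c (e j))) := by
        gcongr
      have : 0 ≤ ‖ξ x j‖ * p a (e j) := by positivity
      linarith
  have k3 := ((((h (x + y) a).add ((h (x + y) c).const_mul η)).const_mul N).const_add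
    (N * (2 * (A * p a' x) + 2 * θ * (B * p b' y) + η * (C * p c' (x + y)))))
  simp only [mul_zero, add_zero] at k3
  refine ge_of_tendsto' k3 fun K => ?_
  have k4 : u (x + y) = ∑ j ∈ range K, ξ (x + y) j • u (e j) +
      u (x + y - ∑ j ∈ range K, ξ (x + y) j • e j) := by simp
  rw [k4]
  refine (norm_add_le _ _).trans (add_le_add ((norm_sum_le _ _).trans ?_) (u1 _))
  simp only [norm_smul]
  refine (sum_le_sum fun j _ => k1 j).trans ?_
  simp only [← mul_sum, sum_add_distrib]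
  gcongr
  exacts [ha x K, hb y K, hc _ K]

end Pool.Agent.P.MP_2fa38d_an.NB
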