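import Pool.Agent.P.MP_2fa38d_an.NB.Lo

/-! Construction of the convolutor. -/

set_option autoImplicit false

namespace Pool.Agent.P.MP_2fa38d_an.NB

open Finset Complex MeasureTheory Filter Topology

/-- sizes of the blocks -/
def X (k : ℕ) : ℕ := 2 ^ 9 ^ (k + 1)
/-- steps of the blocks -/
def LL (k : ℕ) : ℕ := (Nat.unpair k).1 + 1
/-- block operator -/
noncomputable def BT (k : ℕ) : (ℝ → ℂ) → ℝ → ℂ :=
  NI ((X k : ℝ) ^ 8) (lam (X k) (LL k)) (X k ^ 3 + 2)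
/-- block symbol -/
noncomputable def Bm (k : ℕ) (z : ℂ) : ℂ :=
  ∏ i ∈ range (X k ^ 3 + 2), ((1 - z / lam (X k) (LL k) i) * mm ((X k : ℝ) ^ 8) z)

variable {s A Λ L ε : ℝ} {φ : ℝ → ℂ} {z : ℂ} {j k : ℕ}

theorem X_ge (k : ℕ) : 512 * 2 ^ k ≤ X k := by
  rw [show 512 = 2 ^ 9 from rfl, ← pow_add]
  refine Nat.pow_le_pow_right two_pos ?_
  induction k with
  | zero => rfl
  | succ k ih => rw [pow_succ]; omega

theorem X_eps (k : ℕ) : (512 : ℝ) ≤ (1 / 2) ^ k * X k := by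
  rw [one_div_pow, div_mul_eq_mul_div, one_mul, le_div_iff₀ (by positivity)]
  exact_mod_cast X_ge k

theorem X_512 (k : ℕ) : (512 : ℝ) ≤ X k :=
  (X_eps k).trans (mul_le_of_le_one_left (Nat.cast_nonneg _) (pow_le_one₀ (by norm_num) (by norm_num)))

theorem X_pow (h : j < k) : X j ^ 9 ≤ X k := by
  rw [X, ← pow_mul, ← pow_succ]
  exact Nat.pow_le_pow_right two_pos (Nat.pow_le_pow_right (by norm_num) (by omega))

theorem X_sum (k : ℕ) : ∑ j ∈ range k, (X j ^ 3 + 2) ≤ X k := by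
  induction k with
  | zero => simp
  | succ k ih =>
    have h1 : 512 ≤ X k := by exact_mod_cast X_512 k
    have h2 : X k ≤ X k ^ 3 := Nat.le_self_pow (by norm_num) _
    have h3 : X k ≤ X k ^ 6 := Nat.le_self_pow (by norm_num) _
    rw [sum_range_succ]
    refine le_trans ?_ (X_pow k.lt_succ_self)
    rw [show X k ^ 9 = X k ^ 3 * X k ^ 6 by ring]
    nlinarith

theorem LL_one (k : ℕ) : (1 : ℝ) ≤ LL k := by simp [LL]

theorem lam_d (k : ℕ) {i : ℕ} (hi : i < X k ^ 3 + 2) :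
    ‖lam (X k) (LL k) i - ((X k : ℝ) ^ 8 : ℝ)‖ ≤ 2 * (X k : ℝ) ^ 3 :=
  lam_near (by linarith [X_512 k]) (LL_one k) (by exact_mod_cast Nat.lt_succ_iff.1 hi)

theorem X_d (k : ℕ) : 4 * (2 * (X k : ℝ) ^ 3) ≤ (X k : ℝ) ^ 8 := by
  have h1 := X_512 k
  have h2 : (X k : ℝ) ≤ X k ^ 5 := le_self_pow₀ (by linarith) (by norm_num)
  rw [show (X k : ℝ) ^ 8 = X k ^ 5 * X k ^ 3 by ring, ← mul_assoc]
  gcongr
  linarith

theorem nu_le (k : ℕ) : ((X k ^ 3 + 2 : ℕ) : ℝ) ≤ 2 * (X k : ℝ) ^ 3 := by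
  have h1 := X_512 k
  have h2 : (X k : ℝ) ≤ X k ^ 3 := le_self_pow₀ (by linarith) (by norm_num)
  push_cast
  linarith

theorem small (k n : ℕ) {c : ℝ} (hc : c ≤ 512) : c / (X k : ℝ) ^ (n + 1) ≤ (1 / 2) ^ k := by
  have h1 := X_512 k
  rw [div_le_iff₀ (by positivity)]
  refine hc.trans ((X_eps k).trans ?_)
  gcongr
  exact le_self_pow₀ (by linarith) (by omega)

theorem nu_aa (k : ℕ) : ((X k ^ 3 + 2 : ℕ) : ℝ) * aa ((X k : ℝ) ^ 8) ≤ (1 / 2) ^ k := by
  have h1 := X_512 k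
  refine le_trans ?_ (small k 4 (c := 4) (by norm_num))
  calc _ ≤ 2 * (X k : ℝ) ^ 3 * (4 / (2 * (X k : ℝ) ^ 8)) := by
        rw [aa]; gcongr; exacts [nu_le k, Real.pi_le_four]
    _ = _ := by field_simp

theorem block (k : ℕ) (h : Cl s A Λ φ) :
    Cl (s + (1 / 2) ^ k) (Real.exp ((1 / 2) ^ k) * A) (Real.exp ((1 / 2) ^ k) * Λ) (BT k φ) ∧
      ∀ x, ‖BT k φ x - φ x‖ ≤ 3 * (A + Λ) * (1 / 2) ^ k := by
  have h1 := X_512 k
  have x0 : (0 : ℝ) < X k := by linarith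
  obtain ⟨h2, h3⟩ := h.ni (R := (X k : ℝ) ^ 8) (l := lam (X k) (LL k)) (δ := 4 / (X k : ℝ) ^ 5)
    (by positivity) (by positivity) (X k ^ 3 + 2) fun i hi => by
      have e1 := lam_d k hi
      have e2 := norm_sub_norm_le (((X k : ℝ) ^ 8 : ℝ) : ℂ) (lam (X k) (LL k) i)
      have e3 := X_d k
      rw [norm_sub_rev, norm_real, Real.norm_of_nonneg (by positivity)] at e2
      rw [one_sub_div (lam_ne (by linarith) i 0), norm_div]
      calc _ ≤ 2 * (X k : ℝ) ^ 3 / ((X k : ℝ) ^ 8 / 2) := by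
            gcongr; linarith [pow_pos x0 3]
        _ = _ := by field_simp; norm_num
  have a1 := nu_aa k
  have a2 : ((X k ^ 3 + 2 : ℕ) : ℝ) * (3 * (4 / (X k : ℝ) ^ 5)) ≤ (1 / 2) ^ k := by
    refine le_trans ?_ (small k 1 (c := 24) (by norm_num))
    calc _ ≤ 2 * (X k : ℝ) ^ 3 * (3 * (4 / (X k : ℝ) ^ 5)) := by gcongr; exact nu_le k
      _ = _ := by field_simp; ring
  have a3 : (1 + 3 * (4 / (X k : ℝ) ^ 5)) ^ (X k ^ 3 + 2) ≤ Real.exp ((1 / 2) ^ k) := by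
    refine le_trans ?_ (Real.exp_le_exp.2 a2)
    rw [Real.exp_nat_mul, add_comm]
    gcongr
    exact Real.add_one_le_exp _
  have a4 : Real.exp ((1 / 2) ^ k) ≤ 3 := (Real.exp_le_exp.2
    (pow_le_one₀ (by norm_num) (by norm_num))).trans Real.exp_one_lt_three.le
  have A0 := h.A0
  have L0 := h.L0
  refine ⟨h2.mono (by linarith) (by gcongr) (by gcongr), fun x => (h3 x).trans ?_⟩
  rw [mul_assoc 3 (A + Λ)]
  refine mul_le_mul (a3.trans a4) ?_ (by have := aa_pos (pow_pos x0 8); positivity) (by norm_num)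
  nlinarith [mul_le_mul_of_nonneg_right a1 L0, mul_le_mul_of_nonneg_right a2 A0]

theorem ft_BT (k : ℕ) (h : Cc φ) (hz : z ≠ ((X k : ℝ) ^ 8 : ℝ)) : ft (BT k φ) z = Bm k z * ft φ z :=
  ft_NI h (by have := X_512 k; positivity) hz _ fun i _ => lam_ne (by linarith [X_512 k]) i 0

theorem lam0 {x : ℝ} (hx : 1 ≤ x) : ‖lam x L 0‖ ≤ 2 * x ^ 8 := by
  refine (norm_sub_le _ _).trans ?_
  rw [norm_mul, norm_I, norm_real, norm_real, Real.norm_of_nonneg (by positivity),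
    Real.norm_of_nonneg (by positivity)]
  linarith [le_self_pow₀ hx (n := 8) (by norm_num)]

theorem Bm_low (h : j ≠ k) :
    Real.exp (-((if j < k then (X j ^ 3 + 2 : ℕ) else 0 : ℝ) + (1 / 2) ^ j)) ≤
      ‖Bm j (lam (X k) L 0)‖ := by
  have h1 := X_512 j
  have h2 := X_512 k
  have key : ∀ t : ℝ, (∀ i < X j ^ 3 + 2, Real.exp (-t) ≤ ‖(1 - lam (X k) L 0 / lam (X j) (LL j) i) *
      mm ((X j : ℝ) ^ 8) (lam (X k) L 0)‖) →
      Real.exp (-((X j ^ 3 + 2 : ℕ) * t)) ≤ ‖Bm j (lam (X k) L 0)‖ := fun t ht => by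
    rw [Bm, norm_prod, ← mul_neg, Real.exp_nat_mul]
    refine le_trans (le_of_eq ?_)
      (prod_le_prod (fun _ _ => (Real.exp_pos _).le) fun i hi => ht i (mem_range.1 hi))
    rw [prod_const, card_range]
  split_ifs with c
  · refine le_trans (Real.exp_le_exp.2 (by linarith [pow_pos (one_half_pos (α := ℝ)) j])) (key 1 fun i hi =>
      fac_far (by positivity) (lam_d j hi) (X_d j) ?_)
    have : (X j : ℝ) ^ 9 ≤ X k := by exact_mod_cast X_pow c
    simp only [lam, mul_im, ofReal_re, ofReal_im, sub_im, I_re, I_im]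
    linarith [pow_le_pow_right₀ (a := (X j : ℝ)) (by linarith) (show 8 ≤ 9 by norm_num)]
  · have e : (X k : ℝ) ^ 9 ≤ X j := by exact_mod_cast X_pow (show k < j by omega)
    refine le_trans (Real.exp_le_exp.2 ?_) (key (10 * (1 / (X j : ℝ) ^ 7)) fun i hi =>
      fac_near (by positivity) (lam_d j hi) (X_d j) ((lam0 (by linarith)).trans ?_) ?_)
    · rw [neg_le_neg_iff, zero_add]
      refine le_trans ?_ (small j 3 (c := 20) (by norm_num))
      calc _ ≤ 2 * (X j : ℝ) ^ 3 * (10 * (1 / (X j : ℝ) ^ 7)) := by gcongr; exact nu_le j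
        _ = _ := by field_simp; ring
    · rw [show 1 / (X j : ℝ) ^ 7 * X j ^ 8 = X j by field_simp]
      refine le_trans ?_ e
      rw [pow_succ' _ 8]
      gcongr
      linarith
    · exact one_div_le_one_div_of_le (by norm_num)
        (le_trans (by linarith) (le_self_pow₀ (by linarith) (by norm_num)))

theorem mu_ex : ∃ μ, Cl 3 9 9 μ ∧ ∀ L : ℕ, 1 ≤ L → ∀ x0 : ℕ, ∃ x : ℕ, x0 ≤ x ∧
    (∀ i < x ^ 3 + 2, ft μ (lam x L i) = 0) ∧ ∃ (κ : ℝ → ℂ) (N Λ : ℝ), 0 < N ∧ Cl 4 N Λ κ ∧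
      N * Real.exp (-(x + 2)) ≤ 36 * x ^ 16 * ‖ft κ (lam x L 0)‖ ∧
      ∀ f, Continuous f → cv μ f = 0 → cv κ f ∈ Sp (lam x L) 0 (x ^ 3 + 2) := by
  let K : Set ℂ := Set.range fun k => (((X k : ℝ) ^ 8 : ℝ) : ℂ)
  obtain ⟨μ, h1, h2⟩ := inf_prod (T := BT) (m := Bm) (K := K) (fun k _ _ _ _ => block k)
    (fun k φ h z hz => ft_BT k h fun e => hz ⟨k, e.symm⟩) hat_cl
  refine ⟨μ, h1, fun L hL x0 => ?_⟩
  obtain ⟨k, rfl, hk⟩ : ∃ k, L = LL k ∧ x0 ≤ k :=
    ⟨Nat.pair (L - 1) x0, by simp [LL]; omega, Nat.right_le_pair _ _⟩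
  obtain ⟨ψ, h3, h4⟩ := inf_prod (T := fun j φ => if j = k then φ else BT j φ)
    (m := fun j z => if j = k then 1 else Bm j z) (K := K) (fun j s A Λ φ h => by
      split_ifs
      · have e : 1 ≤ Real.exp ((1 / 2) ^ j) := Real.one_le_exp (by positivity)
        have A0 := h.A0
        have L0 := h.L0
        exact ⟨h.mono (by simp) (le_mul_of_one_le_left A0 e) (le_mul_of_one_le_left L0 e),
          fun x => by rw [sub_self, norm_zero]; positivity⟩
      · exact block j h)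
    (fun j φ h z hz => by
      split_ifs
      · rw [one_mul]
      · exact ft_BT j h fun e => hz ⟨j, e.symm⟩) hat_cl
  have c3 : Cc ψ := ⟨_, _, _, h3⟩
  have x1 := X_512 k
  have R0 : (0 : ℝ) < X k ^ 8 := by positivity
  have ne := fun i => lam_ne (x := X k) (L := LL k) (by linarith) i
  have h5 : μ = BT k ψ := ft_inj ⟨_, _, _, h1⟩ (c3.ni R0 _ _)
    (Set.countable_range fun k => (X k : ℝ) ^ 8) fun ξ hξ => by
      have hz : (ξ : ℂ) ∉ K := fun ⟨j, e⟩ => hξ ⟨j, ofReal_injective e⟩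
      rw [ft_BT k c3 fun e => hz ⟨k, e.symm⟩]
      refine tendsto_nhds_unique_of_eventuallyEq (h2 _ hz) ((h4 _ hz).const_mul _) ?_
      filter_upwards [eventually_gt_atTop k] with n hn
      rw [← mul_assoc, ← mul_prod_erase _ _ (mem_range.2 hn), ← mul_prod_erase _ _ (mem_range.2 hn),
        if_pos rfl, one_mul]
      congr 2
      exact prod_congr rfl fun j hj => (if_neg (ne_of_mem_erase hj)).symm
  refine ⟨X k, hk.trans (le_trans ?_ (X_ge k)), fun i hi => ?_, _, _, _, by positivity,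
    (h3.si R0 (X k ^ 3 + 2)).mono ?_ le_rfl le_rfl, ?_, fun f hf h => ?_⟩
  · linarith [k.lt_two_pow_self]
  · rw [h5, ft_BT k c3 (ne i _), Bm, prod_eq_zero (mem_range.2 hi), zero_mul]
    rw [div_self (ne i 0), sub_self, zero_mul]
  · linarith [nu_aa k, pow_le_one₀ (a := (1 / 2 : ℝ)) (n := k) (by norm_num) (by norm_num)]
  · have h6 : Real.exp (-(X k + 2)) * ‖ft hat (lam (X k) (LL k) 0)‖ ≤ ‖ft ψ (lam (X k) (LL k) 0)‖ := by
      refine ge_of_tendsto' (h4 _ fun ⟨j, e⟩ => ne 0 _ e.symm).norm fun n => ?_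
      rw [norm_mul, norm_prod]
      gcongr
      refine le_trans (b := ∏ j ∈ range n,
        Real.exp (-((if j < k then (X j ^ 3 + 2 : ℕ) else 0 : ℝ) + (1 / 2) ^ j))) ?_
        (prod_le_prod (fun _ _ => (Real.exp_pos _).le) fun j _ => ?_)
      · rw [← Real.exp_sum, sum_neg_distrib, sum_add_distrib, ← sum_filter, Real.exp_le_exp,
          neg_le_neg_iff]
        refine add_le_add ((sum_le_sum_of_subset_of_nonneg (t := range k) (fun j hj => ?_)
          fun _ _ _ => by positivity).trans (by exact_mod_cast X_sum k)) (sum_geometric_two_le n)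
        exact mem_range.2 (mem_filter.1 hj).2
      · by_cases c : j = k
        · simp [c]
        · rw [if_neg c]
          exact Bm_low c
    have h7 := hat_low (z := lam (X k) (LL k) 0) (by
      simp only [lam, mul_im, ofReal_re, ofReal_im, sub_im, I_re, I_im]; linarith)
    have h8 := lam0 (x := X k) (L := LL k) (by linarith)
    rw [ft_SI c3 R0 (ne 0 _), norm_mul, norm_pow]
    calc _ ≤ (Real.pi / 2) ^ (X k ^ 3 + 2) * 9 * Real.exp (-(X k + 2)) *
          (‖ft hat (lam (X k) (LL k) 0)‖ * (2 * X k ^ 8) ^ 2) :=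
          le_mul_of_one_le_right (by positivity) (h7.trans (by gcongr))
      _ = 36 * X k ^ 16 * ((Real.pi / 2) ^ (X k ^ 3 + 2) *
          (Real.exp (-(X k + 2)) * ‖ft hat (lam (X k) (LL k) 0)‖)) := by ring
      _ ≤ _ := by gcongr; exact mm_low (by linarith)
  · refine in_span R0 hf (fun i _ => ne i 0) (fun n i h _ => lam_inj (by linarith)
      (by linarith [LL_one k]) n i h) _ le_rfl c3 ?_
    rw [h5, BT] at h
    rw [h]
    exact zero_mem _

end Pool.Agent.P.MP_2fa38d_an.NB
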