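import Pool.Agent.P.MP_2fa38d_an.NB.Sm
import Pool.Agent.P.MP_2fa38d_an.NB.Apx
import Pool.Agent.P.MP_2fa38d_an.NB.Mu

/-! The kernel has no basis. -/

set_option autoImplicit false

namespace Pool.Agent.P.MP_2fa38d_an.NB

open Finset Complex MeasureTheory Filter Topology
open scoped ContDiff

variable {φ μ f g : ℝ → ℂ} {l : ℂ}

theorem cv_add (h : Cc φ) (hf : Continuous f) (hg : Continuous g) (x : ℝ) :
    cv φ (f + g) x = cv φ f x + cv φ g x := by
  simp only [cv, Pi.add_apply, mul_add]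
  exact integral_add (h.int hf x) (h.int hg x)

theorem cv_smul (c : ℂ) (x : ℝ) : cv φ (c • f) x = c * cv φ f x := by
  simp only [cv, Pi.smul_apply, smul_eq_mul, ← integral_const_mul, mul_left_comm]

/-- smooth solutions of the convolution equation -/
def Ker (h : Cc μ) : Submodule ℂ (ℝ → ℂ) where
  carrier := {f | ContDiff ℝ ∞ f ∧ ∀ x, cv μ f x = 0}
  add_mem' hf hg := ⟨hf.1.add hg.1, fun x => by
    rw [cv_add h hf.1.continuous hg.1.continuous, hf.2, hg.2, add_zero]⟩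
  zero_mem' := ⟨contDiff_const, fun x => by simp [cv]⟩
  smul_mem' c f hf := ⟨hf.1.const_smul c, fun x => by rw [cv_smul, hf.2, mul_zero]⟩

/-- convolution functional -/
noncomputable def cvL (h : Cc μ) (h' : Cc φ) (x : ℝ) : Ker h →ₗ[ℂ] ℂ where
  toFun f := cv φ f.1 x
  map_add' f g := cv_add h' f.2.1.continuous g.2.1.continuous x
  map_smul' c _ := cv_smul c x

theorem ex_mem (h : Cc μ) (e : ft μ l = 0) : ex l ∈ Ker h :=
  ⟨smooth_real (G := fun z => exp (I * l * z)) (by fun_prop), fun x => by rw [cv_ex, e, zero_mul]⟩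

theorem Ker.closed (h : Cl 3 9 9 μ) (hc : Cc μ) (g : ℝ → ℂ) (hg : ContDiff ℝ ∞ g)
    (H : ∀ (n : ℕ) (ε : ℝ), 0 < ε → ∃ f ∈ Ker hc, ∀ t : ℝ, |t| ≤ n → ‖g t - f t‖ ≤ ε) :
    g ∈ Ker hc := by
  refine ⟨hg, fun x => norm_le_zero_iff.1 (le_of_forall_pos_le_add fun ε hε => ?_)⟩
  obtain ⟨n, hn⟩ := exists_nat_ge (|x| + 3)
  obtain ⟨f, hf, h1⟩ := H n (ε / 54) (by positivity)
  rw [← sub_add_cancel g f, cv_add hc (hg.continuous.sub hf.1.continuous) hf.1.continuous, hf.2,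
    add_zero]
  exact (cv_le (by norm_num) h.supp h.bd fun t ht => h1 _ (by linarith [abs_sub x t])).trans_eq
    (by ring)

theorem pw_mem (h : Cc μ) {x L : ℝ} {n : ℕ} (e : ∀ i < n + 2, ft μ (lam x L i) = 0) (j i : ℕ)
    (hj : i + j ≤ n) : (fun t : ℝ => ex (lam x L (i + 1)) t * (exp (I * t / L) - 1) ^ j) ∈ Ker h := by
  induction j generalizing i with
  | zero => simpa using ex_mem h (e (i + 1) (by omega))
  | succ j ih =>
    convert sub_mem (ih (i + 1) (by omega)) (ih i (by omega)) using 1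
    ext t
    have : ex (lam x L (i + 1 + 1)) t = ex (lam x L (i + 1)) t * exp (I * t / L) := by
      rw [ex, ex, ← exp_add, lam, lam]; congr 1; push_cast; ring
    rw [Pi.sub_apply, this]
    ring

theorem Ker.inf (h : Cc μ) (e : ∀ x0 : ℕ, ∃ x : ℕ, x0 ≤ x ∧ ft μ (lam x 1 0) = 0) :
    ¬ Module.Finite ℂ (Ker h) := fun _ => by
  let S := {x : ℕ | ft μ (lam x 1 0) = 0}
  let χ : S → Multiplicative ℝ →* ℂ := fun x =>
    { toFun := fun t => ex (lam x.1 1 0) t.toAdd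
      map_one' := by simp [ex]
      map_mul' := fun t u => ex_add _ _ _ }
  have h1 : Function.Injective χ := fun x y hxy => by
    have := congrArg norm (DFunLike.congr_fun hxy (Multiplicative.ofAdd 1))
    change ‖ex _ 1‖ = ‖ex _ 1‖ at this
    simp only [norm_ex, lam, mul_im, ofReal_re, ofReal_im, sub_im, I_re, I_im, Real.exp_eq_exp]
      at this
    exact Subtype.ext (Nat.cast_injective (R := ℝ) (by linarith))
  have h2 : LinearIndependent ℂ fun x : S => (⟨_, ex_mem h x.2⟩ : Ker h) :=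
    .of_comp (Ker h).subtype ((linearIndependent_monoidHom _ ℂ).comp χ h1)
  refine Set.infinite_of_forall_exists_gt (s := S) (fun n => ?_) h2.finite_of_isNoetherian
  obtain ⟨x, h3, h4⟩ := e (n + 1)
  exact ⟨x, h4, h3⟩

theorem no_basis : ∃ (μ : ℝ → ℂ) (h : Cc μ), ¬ Module.Finite ℂ (Ker h) ∧
    ∀ p, Sn (Ker h) p → ∀ e, ¬ ∀ f, ∃! c, Cv p e c f := by
  obtain ⟨μ, h0, h1⟩ := mu_ex
  have h : Cc μ := ⟨_, _, _, h0⟩
  refine ⟨μ, h, Ker.inf h fun x0 => ?_, fun p hp e he => ?_⟩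
  · obtain ⟨x, h2, h3, -⟩ := h1 1 le_rfl x0
    exact ⟨x, h2, by simpa using h3 0 (by omega)⟩
  have hW : ∀ f ∈ Ker h, ContDiff ℝ ∞ f := fun f hf => hf.1
  obtain ⟨ξ, k1, k2, k3⟩ := om hp.mono (hp.cpl hW (Ker.closed h0 h)) he
  have k4 := dm hp.mono (hp.nuc hW) k2 k3
  obtain ⟨a, A, hA, ha⟩ := k4 4
  obtain ⟨b, B, hB, hb⟩ := k4 (4 * (16 * (a + 1)) + 12 + 4)
  obtain ⟨c, C, hC, hc⟩ := k4 (4 * (16 * (a + 1)) + 12 + 7 * (16 * (a + b + 1)) + 4)
  obtain ⟨D, hD⟩ : ∃ D : ℝ, D = 12 * A * a.factorial + 18 * B * b.factorial + 3 * C * c.factorial :=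
    ⟨_, rfl⟩
  obtain ⟨x0, hx0⟩ := eventually_atTop.1 (((((Real.tendsto_pow_mul_exp_neg_atTop_nhds_zero
    (16 + 8 * (a + b + c))).comp tendsto_natCast_atTop_atTop).const_mul (576 * D))).eventually
      (gt_mem_nhds (show 576 * D * 0 < 1 by simp)))
  obtain ⟨x, hx, z1, κ, N, Λ, N0, z2, z3, z4⟩ := h1 (16 * (a + b + 1)) (by omega)
    (x0 + 16 * (16 * (a + b + 1)) ^ 2 + (c + 4))
  obtain ⟨α, hα⟩ := approx x (16 * (a + 1)) (16 * (a + b + 1)) (by omega) (by omega) (by omega)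
  have x1 : (c : ℝ) + 4 ≤ x := by exact_mod_cast (show c + 4 ≤ x by omega)
  have c0 : (0 : ℝ) ≤ c := c.cast_nonneg
  have x4 : (4 : ℝ) ≤ x := by linarith
  specialize hx0 x (by omega)
  have e1 : (a : ℝ) + 1 = (16 * (a + 1) : ℕ) / 16 := by push_cast; ring
  have e2 : (b : ℝ) + 1 ≤ (16 * (a + b + 1) : ℕ) / 16 := by push_cast; linarith
  have hL : (1 : ℝ) ≤ (16 * (a + b + 1) : ℕ) := by exact_mod_cast (by omega)
  generalize 16 * (a + b + 1) = L at *
  generalize 16 * (a + 1) = L1 at *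
  have hκ : Cc κ := ⟨_, _, _, z2⟩
  obtain ⟨T, hT⟩ : ∃ T : ℝ, T = 2 * Real.pi * L := ⟨_, rfl⟩
  have T1 : 1 ≤ T := by nlinarith [Real.pi_gt_three]
  have T2 : T ≤ 7 * L := by nlinarith [Real.pi_lt_d2]
  let γ := ex (-lam x L 1) T
  have γ1 : ‖γ‖ = Real.exp (-(x ^ 2 * T)) := by
    simp only [γ, norm_ex, lam, neg_im, mul_im, ofReal_re, ofReal_im, sub_im, add_im, I_re, I_im,
      Nat.cast_zero, zero_div, zero_im]
    ring_nf
  have γ2 : ∀ t, ‖ex (lam x L 0) t‖ = Real.exp (x * t) := fun t => by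
    simp only [norm_ex, lam, mul_im, ofReal_re, ofReal_im, sub_im, I_re, I_im]
    ring_nf
  have γ3 : ∀ i, γ * ex (lam x L (i + 1)) T = 1 := fun i => by
    have : ((L : ℝ) : ℂ) ≠ 0 := by exact_mod_cast (show L ≠ 0 by rintro rfl; norm_num at hL)
    rw [← exp_nat_mul_two_pi_mul_I i, ex, show γ = exp _ from rfl, ← exp_add, lam, lam, hT]
    congr 1
    simp only [ofReal_mul, ofReal_ofNat]
    field_simp
    ring
  let u : Ker h →ₗ[ℂ] ℂ := cvL h hκ 0 - γ • cvL h hκ T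
  have u0 : ∀ f : Ker h, u f = cv κ f.1 0 - γ * cv κ f.1 T := fun f => rfl
  have u1 : ∀ (f : Ker h) (n : ℕ) (t : ℝ), 0 ≤ t → t + 4 ≤ n → ‖cv κ f.1 t‖ ≤ 8 * N * p n f :=
    fun f n t t0 ht => (cv_le (by norm_num) z2.supp z2.bd fun τ hτ =>
      hp.le0 n f (by linarith [abs_sub t τ, abs_of_nonneg t0])).trans_eq (by ring)
  have u2 : ∀ (f : Ker h) (n m : ℕ) (t : ℝ), 0 ≤ t → t + 4 ≤ n → t + T + 4 ≤ m →
      ‖u f‖ ≤ 8 * N * (Real.exp (-(x * t)) * (p n f + Real.exp (-(x ^ 2 * T)) * p m f)) :=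
    fun f n m t t0 hn hm => by
      have := norm_sub_le_of_le (u1 f n t t0 hn)
        (norm_mul_le_of_le γ1.le (u1 f m (t + T) (by linarith) hm))
      rw [kill (z4 f.1 f.2.1.continuous (funext f.2.2)) γ3, norm_mul, γ2, ← u0] at this
      rw [Real.exp_neg (x * t), mul_left_comm, ← div_eq_inv_mul, le_div_iff₀ (Real.exp_pos _)]
      linarith
  let G : ℂ → ℂ := fun z => exp (I * (x ^ 8 : ℝ) * z)
  have G1 : ∀ z : ℂ, |z.im| ≤ 1 / (x : ℝ) ^ 8 → ‖G z‖ ≤ 3 := fun z hz => by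
    rw [le_div_iff₀ (by positivity)] at hz
    refine le_trans ?_ Real.exp_one_lt_three.le
    simp only [G, norm_exp, mul_re, mul_im, I_re, I_im, ofReal_re, ofReal_im, Real.exp_le_exp]
    nlinarith [neg_abs_le z.im, pow_pos (show (0 : ℝ) < x by linarith) 8]
  have G2 : (fun t : ℝ => G t * (exp (x ^ 2 * t) * tp α (x ^ 3) L t)) ∈ Ker h := by
    convert Submodule.sum_mem _ fun j (hj : j ∈ range (x ^ 3 + 1)) => Submodule.smul_mem _ (α j)
      (pw_mem h z1 j 0 (by have := mem_range.1 hj; omega)) using 1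
    ext t
    have : ex (lam x L (0 + 1)) t = G t * exp (x ^ 2 * t) := by
      rw [ex, ← exp_add, lam]; congr 1; push_cast; linear_combination (-(x ^ 2 * t : ℂ)) * I_sq
    simp only [Finset.sum_apply, Pi.smul_apply, smul_eq_mul, this, tp, mul_sum]
    exact sum_congr rfl fun _ _ => by ring
  have G0 : ex (lam x L 0) = fun t : ℝ => G t * exp (x * t) := funext fun t => by
    rw [ex, ← exp_add, lam]; congr 1; push_cast; linear_combination (-(x * t : ℂ)) * I_sq
  let f0 : Ker h := ⟨_, ex_mem h (z1 0 (by omega))⟩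
  let g2 : Ker h := ⟨_, G2⟩
  have R1 : (1 : ℝ) ≤ x ^ 8 := one_le_pow₀ (by linarith)
  have dG : Differentiable ℂ G := by fun_prop
  have dt := tp_diff α (x ^ 3) L
  have b1 := hp.cauchy (G := fun z => G z * (exp (x * z) - exp (x ^ 2 * z) * tp α (x ^ 3) L z))
    (by fun_prop) (f0 - g2) (by ext t; simp [f0, g2, G0, mul_sub]) a R1 fun z h1 h2 =>
      norm_mul_le_of_le (G1 z h2) ((hα z).1 (h1.trans_eq e1))
  have b2 := hp.cauchy (G := fun z => G z * (exp (x ^ 2 * z) * tp α (x ^ 3) L z))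
    (by fun_prop) g2 rfl b R1 fun z h1 h2 => norm_mul_le_of_le (G1 z h2) ((hα z).2 (h1.trans e2)
      (h2.trans ((div_le_one (by linarith)).2 R1)))
  have b3 := hp.cauchy (G := fun z => G z * exp (x * z)) (by fun_prop) f0 G0 c R1 fun z h1 h2 =>
    norm_mul_le_of_le (G1 z h2) (norm_exp_le (c := x * (c + 1)) (by
      rw [norm_mul, Complex.norm_natCast]; gcongr))
  have b4 := distrib k1 u (N := 8 * N) (by positivity) (Real.exp_pos (-(x ^ 2 * T))).le
    (Real.exp_pos (-(x * (4 * L1 + 12)))).le (Real.exp_le_one_iff.2 (neg_nonpos.2 (by positivity)))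
    ha hb hc (fun f => by
      simpa using u2 f 4 (4 * L1 + 12 + 7 * L + 4) 0 le_rfl (by norm_num) (by push_cast; linarith))
    (fun f => u2 f _ _ _ (by positivity) (by push_cast; rfl) (by push_cast; linarith)) (f0 - g2) g2
  rw [sub_add_cancel] at b4
  have b5 : ‖ft κ (lam x L 0)‖ ≤ 2 * ‖u f0‖ := by
    have e3 : ‖γ * ex (lam x L 0) T‖ ≤ 1 / 2 := by
      rw [norm_mul, γ1, γ2, ← Real.exp_add]
      refine (Real.exp_le_exp.2 (show _ ≤ -1 by
        linarith [one_le_mul_of_one_le_of_one_le (show (1 : ℝ) ≤ x ^ 2 - x by nlinarith) T1])).trans ?_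
      rw [Real.exp_neg, ← one_div]
      exact one_div_le_one_div_of_le two_pos (by linarith [Real.add_one_le_exp 1])
    have e4 := norm_sub_norm_le 1 (γ * ex (lam x L 0) T)
    have e5 : u f0 = ft κ (lam x L 0) * (1 - γ * ex (lam x L 0) T) := by
      rw [u0, cv_ex κ _ T, ft]; ring
    rw [e5, norm_mul]
    rw [norm_one] at e4
    nlinarith [norm_nonneg (ft κ (lam x L 0))]
  obtain ⟨Q, hQ⟩ : ∃ Q : ℝ, Q = (x ^ 8) ^ (a + b + c) * Real.exp (-(3 * x)) := ⟨_, rfl⟩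
  have q1 : p a (f0 - g2) ≤ 6 * a.factorial * Q := b1.trans (by
    calc _ ≤ a.factorial * ((x : ℝ) ^ 8) ^ (a + b + c) * (3 * (2 * Real.exp (-(3 * x)))) := by
          gcongr; omega
      _ = _ := by rw [hQ]; ring)
  have q2 : Real.exp (-(x * (4 * L1 + 12))) * p b g2 ≤ 9 * b.factorial * Q := by
    calc _ ≤ Real.exp (-(x * (4 * L1 + 12))) * (b.factorial * ((x : ℝ) ^ 8) ^ (a + b + c) *
          (3 * (3 * Real.exp (x * (4 * L1 + 9))))) := by
          gcongr
          exact b2.trans (by gcongr; omega)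
      _ = _ := by
        rw [hQ, show -(3 * x : ℝ) = -(x * (4 * L1 + 12)) + x * (4 * L1 + 9) by ring, Real.exp_add]
        ring
  have q3 : Real.exp (-(x ^ 2 * T)) * p c f0 ≤ 3 * c.factorial * Q := by
    calc _ ≤ Real.exp (-(x * (c + 4))) * (c.factorial * ((x : ℝ) ^ 8) ^ (a + b + c) *
          (3 * Real.exp (x * (c + 1)))) := by
          refine mul_le_mul (Real.exp_le_exp.2 ?_) (b3.trans (by gcongr; omega)) (apply_nonneg _ _)
            (Real.exp_pos _).le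
          linarith [mul_le_mul_of_nonneg_left (mul_le_mul x1 T1 zero_le_one x.cast_nonneg)
            x.cast_nonneg]
      _ = _ := by
        rw [hQ, show -(3 * x : ℝ) = -(x * (c + 4)) + x * (c + 1) by ring, Real.exp_add]
        ring
  have q4 : ‖u f0‖ ≤ 8 * N * (D * Q) := b4.trans (by
    refine mul_le_mul_of_nonneg_left ?_ (by positivity)
    rw [hD]
    linarith [mul_le_mul_of_nonneg_left q1 (zero_le_one.trans hA),
      mul_le_mul_of_nonneg_left q2 (zero_le_one.trans hB),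
      mul_le_mul_of_nonneg_left q3 (zero_le_one.trans hC)])
  have D0 : 0 ≤ D := by rw [hD]; positivity
  refine absurd (mul_lt_mul_of_pos_left hx0 (mul_pos N0 (Real.exp_pos (-(x + 2))))) (not_lt.2 ?_)
  calc _ = _ := mul_one _
    _ ≤ 36 * (x : ℝ) ^ 16 * (2 * (8 * N * (D * Q))) := z3.trans (by
        gcongr; exact b5.trans (by gcongr))
    _ = 576 * N * D * x ^ (16 + 8 * (a + b + c)) * Real.exp (-(3 * x)) := by
        rw [hQ, pow_add _ 16, pow_mul _ 8]; ring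
    _ ≤ 576 * N * D * x ^ (16 + 8 * (a + b + c)) * Real.exp (-(x + 2) + -x) := by gcongr; linarith
    _ = _ := by rw [Real.exp_add, Function.comp_apply]; ring

theorem Sn.cv_iff {W : Submodule ℂ (ℝ → ℂ)} {p : ℕ → Seminorm ℂ W} (h : Sn W p)
    (hW : ∀ f ∈ W, ContDiff ℝ ∞ f) (e : ℕ → W) (c : ℕ → ℂ) (f : W) :
    Cv p e c f ↔ ∀ (m : ℕ) (A : ℝ), TendstoUniformlyOn
      (fun N => iteratedDeriv m fun x => ∑ j ∈ range N, c j * (e j).1 x) (iteratedDeriv m f.1)
      atTop (Set.Icc (-A) A) := by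
  have k : ∀ (m N : ℕ) (t : ℝ), ‖iteratedDeriv m (f - ∑ j ∈ range N, c j • e j).1 t‖ =
      dist (iteratedDeriv m f.1 t) (iteratedDeriv m (fun x => ∑ j ∈ range N, c j * (e j).1 x) t) :=
    fun m N t => by
      rw [dist_eq_norm]
      refine congrArg norm (((ev hW m t).map_sub _ _).trans ?_)
      congr 1
      refine congrArg (iteratedDeriv m · t) (funext fun x => ?_)
      simp
  refine ⟨fun H m A => Metric.tendstoUniformlyOn_iff.2 fun ε hε => ?_, fun H n => ?_⟩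
  · obtain ⟨n, hn⟩ := exists_nat_ge A
    filter_upwards [(H (n + m)).eventually (gt_mem_nhds hε)] with N hN t ht
    rw [← k]
    exact (h.le _ _ m t (by omega) ((abs_le.2 ht).trans (by push_cast; linarith))).trans_lt hN
  · refine tendsto_order.2 ⟨fun ε hε => .of_forall fun _ => hε.trans_le (apply_nonneg _ _),
      fun ε hε => ?_⟩
    filter_upwards [(eventually_all_finset (range (n + 1))).2 fun i _ =>
      Metric.tendstoUniformlyOn_iff.1 (H i n) (ε / 2) (half_pos hε)] with N hN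
    refine (h.ge n _ (ε / 2) fun i hi t ht => ?_).trans_lt (half_lt_self hε)
    rw [k]
    exact (hN i (mem_range.2 (by omega)) t (abs_le.1 ht)).le

end Pool.Agent.P.MP_2fa38d_an.NB
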