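import Pool.Agent.P.MP_2fa38d_an.NB.Op

/-! Iterated operators, the differential equation and infinite products. -/

set_option autoImplicit false

namespace Pool.Agent.P.MP_2fa38d_an.NB

open Finset Complex MeasureTheory Filter Topology

/-- iterate of `NN` -/
noncomputable def NI (R : ℝ) (l : ℕ → ℂ) : ℕ → (ℝ → ℂ) → ℝ → ℂ
  | 0, φ => φ
  | n + 1, φ => NN R (l n) (NI R l n φ)

/-- span of exponentials -/
noncomputable def Sp (l : ℕ → ℂ) (n ν : ℕ) : Submodule ℂ (ℝ → ℂ) :=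
  Submodule.span ℂ ((fun i => ex (l i)) '' Set.Ico n ν)

variable {s A Λ R : ℝ} {φ ψ f : ℝ → ℂ} {z : ℂ} {l : ℕ → ℂ}

theorem Cc.ni (h : Cc φ) (hR : 0 < R) (l : ℕ → ℂ) : ∀ n, Cc (NI R l n φ)
  | 0 => h
  | n + 1 => (Cc.ni h hR l n).N hR _

theorem Cl.si (h : Cl s A Λ φ) (hR : 0 < R) (n : ℕ) :
    Cl (s + n * aa R) ((Real.pi / 2) ^ n * A) ((Real.pi / 2) ^ n * Λ) ((SS R)^[n] φ) := by
  induction n with
  | zero => simpa using h
  | succ n ih =>
    rw [Function.iterate_succ_apply']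
    exact (ih.op (loc_S hR)).mono (by push_cast; linarith) (by ring_nf; rfl) (by ring_nf; rfl)

theorem Cl.ni (h : Cl s A Λ φ) (hR : 0 < R) {δ : ℝ} (δ0 : 0 ≤ δ) (n : ℕ)
    (hδ : ∀ i < n, ‖1 - R / l i‖ ≤ δ) :
    Cl (s + n * aa R) ((1 + 3 * δ) ^ n * A) ((1 + 3 * δ) ^ n * Λ) (NI R l n φ) ∧
      ∀ x, ‖NI R l n φ x - φ x‖ ≤ (1 + 3 * δ) ^ n * (n * (aa R * Λ + 3 * δ * A)) := by
  induction n with
  | zero => exact ⟨by simpa [NI] using h, by simp [NI]⟩
  | succ n ih =>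
    obtain ⟨h1, h2⟩ := ih fun i hi => hδ i (by omega)
    have h3 := hδ n (by omega)
    refine ⟨(h1.op (loc_N hR h3)).mono (by push_cast; linarith) (by ring_nf; rfl)
      (by ring_nf; rfl), fun x => ?_⟩
    have h4 := norm_add_le_of_le (h1.near hR h3 x) (h2 x)
    rw [sub_add_sub_cancel] at h4
    refine h4.trans (le_trans (b := (1 + 3 * δ) ^ n * ((n + 1 : ℕ) * (aa R * Λ + 3 * δ * A)))
      (by push_cast; ring_nf; rfl) ?_)
    have := h.A0
    have := h.L0
    have := aa_pos hR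
    gcongr
    · linarith
    · omega

theorem ft_NI (h : Cc φ) (hR : 0 < R) (hz : z ≠ R) (n : ℕ) (hl : ∀ i < n, l i ≠ 0) :
    ft (NI R l n φ) z = (∏ i ∈ range n, ((1 - z / l i) * mm R z)) * ft φ z := by
  induction n with
  | zero => simp [NI]
  | succ n ih =>
    rw [NI, ft_N (h.ni hR l n) hR (hl n (by omega)) hz, ih fun i hi => hl i (by omega),
      prod_range_succ]
    ring

theorem ft_SI (h : Cc φ) (hR : 0 < R) (hz : z ≠ R) (n : ℕ) :
    ft ((SS R)^[n] φ) z = mm R z ^ n * ft φ z := by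
  induction n generalizing φ with
  | zero => simp
  | succ n ih => rw [Function.iterate_succ_apply, ih (h.S hR), ft_S h hR hz]; ring

theorem S_NI (h : Cc φ) (hR : 0 < R) (n : ℕ) (hl : ∀ i < n, l i ≠ 0) :
    SS R (NI R l n φ) = NI R l n (SS R φ) :=
  ft_inj ((h.ni hR l n).S hR) ((h.S hR).ni hR l n) (Set.countable_singleton R) fun ξ hξ => by
    have : (ξ : ℂ) ≠ R := by exact_mod_cast hξ
    rw [ft_S (h.ni hR l n) hR this, ft_NI h hR this n hl, ft_NI (h.S hR) hR this n hl,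
      ft_S h hR this]
    ring

theorem ode {y b : ℝ → ℂ} {n ν : ℕ} (hn : n < ν) (hl : ∀ i, n < i → i < ν → l i ≠ l n)
    (hb : b ∈ Sp l (n + 1) ν) (hy : ∀ x, HasDerivAt y (I * l n * (y x - b x)) x) :
    y ∈ Sp l n ν := by
  have h1 : ∃ w ∈ Sp l n ν, ∀ x, HasDerivAt w (I * l n * (w x - b x)) x := by
    clear hy
    induction hb using Submodule.span_induction with
    | mem b hb =>
      obtain ⟨i, hi, rfl⟩ := hb
      have := sub_ne_zero.2 (hl i hi.1 hi.2).symm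
      refine ⟨(l n / (l n - l i)) • ex (l i), Submodule.smul_mem _ _
        (Submodule.subset_span ⟨i, ⟨by have := hi.1; omega, hi.2⟩, rfl⟩), fun x => ?_⟩
      refine ((ex_deriv (l i) x).const_smul (l n / (l n - l i))).congr_deriv ?_
      simp only [Pi.smul_apply, smul_eq_mul]
      field_simp
      ring
    | zero => exact ⟨0, zero_mem _, fun x => (hasDerivAt_const x 0).congr_deriv (by simp)⟩
    | add b c _ _ h1 h2 =>
      obtain ⟨w, hw, h1⟩ := h1
      obtain ⟨v, hv, h2⟩ := h2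
      exact ⟨w + v, add_mem hw hv, fun x => ((h1 x).add (h2 x)).congr_deriv (by
        simp only [Pi.add_apply]; ring)⟩
    | smul c b _ h1 =>
      obtain ⟨w, hw, h1⟩ := h1
      exact ⟨c • w, Submodule.smul_mem _ _ hw, fun x => ((h1 x).const_smul c).congr_deriv (by
        simp only [Pi.smul_apply, smul_eq_mul]; ring)⟩
  obtain ⟨w, hw, h1⟩ := h1
  have h2 : ∀ x, HasDerivAt ((y - w) * ex (-l n)) 0 x := fun x =>
    (((hy x).sub (h1 x)).mul (ex_deriv (-l n) x)).congr_deriv (by simp only [Pi.sub_apply]; ring)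
  have h3 : y = w + (y 0 - w 0) • ex (l n) := funext fun x => by
    have := is_const_of_deriv_eq_zero (fun x => (h2 x).differentiableAt) (fun x => (h2 x).deriv) x 0
    have e : ex (-l n) x * ex (l n) x = 1 := by simp [ex, ← exp_add]
    simp only [Pi.mul_apply, Pi.sub_apply, ex, ofReal_zero, mul_zero, exp_zero, mul_one] at this
    simp only [Pi.add_apply, Pi.smul_apply, smul_eq_mul, ← this]
    simp only [ex] at e ⊢
    linear_combination (w x - y x) * e
  rw [h3]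
  exact add_mem hw (Submodule.smul_mem _ _ (Submodule.subset_span ⟨n, ⟨le_rfl, hn⟩, rfl⟩))

theorem in_span (hR : 0 < R) (hf : Continuous f) {ν : ℕ} (hl : ∀ i < ν, l i ≠ 0)
    (hi : ∀ n i, n < i → i < ν → l i ≠ l n) (n : ℕ) (hn : n ≤ ν) (h : Cc ψ)
    (h1 : cv (NI R l n ψ) f ∈ Sp l n ν) : cv ((SS R)^[n] ψ) f ∈ Sp l 0 ν := by
  induction n generalizing ψ with
  | zero => exact h1
  | succ n ih =>
    refine ih (by omega) (h.S hR) ?_
    rw [← S_NI h hR n fun i hi => hl i (by omega)]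
    exact ode hn (hi n) h1 (cv_deriv (h.ni hR l n) hR (hl n hn) hf)

theorem kill {g : ℝ → ℂ} {ν : ℕ} {c : ℂ} {T : ℝ} (hg : g ∈ Sp l 0 ν)
    (h : ∀ i, c * ex (l (i + 1)) T = 1) (x : ℝ) :
    g x - c * g (x + T) = (g 0 - c * g T) * ex (l 0) x := by
  induction hg using Submodule.span_induction with
  | mem b hb =>
    obtain ⟨i, -, rfl⟩ := hb
    have e : ∀ z, ex z 0 = 1 := fun z => by simp [ex]
    simp only [ex_add, e]
    cases i with
    | zero => ring
    | succ i => linear_combination (ex (l 0) x - ex (l (i + 1)) x) * h i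
  | zero => simp
  | add b c _ _ h1 h2 => simp only [Pi.add_apply]; linear_combination h1 + h2
  | smul a b _ h1 => simp only [Pi.smul_apply, smul_eq_mul]; linear_combination a * h1

theorem inf_prod {T : ℕ → (ℝ → ℂ) → ℝ → ℂ} {m : ℕ → ℂ → ℂ} {K : Set ℂ}
    (h1 : ∀ k s A Λ φ, Cl s A Λ φ →
      Cl (s + (1 / 2) ^ k) (Real.exp ((1 / 2) ^ k) * A) (Real.exp ((1 / 2) ^ k) * Λ) (T k φ) ∧
        ∀ x, ‖T k φ x - φ x‖ ≤ 3 * (A + Λ) * (1 / 2) ^ k)
    (h2 : ∀ k φ, Cc φ → ∀ z ∉ K, ft (T k φ) z = m k z * ft φ z) (h0 : Cl 1 1 1 φ) :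
    ∃ Φ, Cl 3 9 9 Φ ∧
      ∀ z ∉ K, Tendsto (fun n => (∏ k ∈ range n, m k z) * ft φ z) atTop (𝓝 (ft Φ z)) := by
  let P : ℕ → ℝ → ℂ := fun n => Nat.rec φ (fun k ψ => T k ψ) n
  have p1 : ∀ n, Cl (1 + ∑ k ∈ range n, (1 / 2) ^ k) (Real.exp (∑ k ∈ range n, (1 / 2) ^ k))
      (Real.exp (∑ k ∈ range n, (1 / 2) ^ k)) (P n) := fun n => by
    induction n with
    | zero => simpa [P] using h0
    | succ n ih =>
      rw [sum_range_succ, Real.exp_add, mul_comm, ← add_assoc]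
      exact (h1 n _ _ _ _ ih).1
  have p2 : ∀ n, Cl 3 9 9 (P n) := fun n => by
    have := sum_geometric_two_le n
    have e : Real.exp (∑ k ∈ range n, (1 / 2) ^ k) ≤ 9 := (Real.exp_le_exp.2 this).trans (by
      rw [← one_add_one_eq_two, Real.exp_add]
      nlinarith [Real.exp_one_lt_three, Real.exp_pos 1])
    exact (p1 n).mono (by linarith) e e
  have p3 : ∀ x n, dist (P n x) (P (n + 1) x) ≤ 3 * (9 + 9) * (1 / 2) ^ n := fun x n => by
    rw [dist_comm, dist_eq_norm]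
    exact (h1 n _ _ _ _ (p2 n)).2 x
  choose Φ p4 using fun x => cauchySeq_tendsto_of_complete
    (cauchySeq_of_le_geometric (1 / 2) _ (by norm_num) (p3 x))
  have p5 : Cl 3 9 9 Φ := ⟨fun t ht => tendsto_nhds_unique (p4 t) (by simp [(p2 _).supp t ht]),
    fun t => le_of_tendsto' (p4 t).norm fun n => (p2 n).bd t,
    fun t u => le_of_tendsto' ((p4 t).sub (p4 u)).norm fun n => (p2 n).lip t u⟩
  refine ⟨Φ, p5, fun z hz => ?_⟩
  have p6 : ∀ n, (∏ k ∈ range n, m k z) * ft φ z = ft (P n) z := fun n => by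
    induction n with
    | zero => simp [P]
    | succ n ih =>
      rw [prod_range_succ, mul_right_comm, ih, mul_comm]
      exact (h2 n _ ⟨_, _, _, p2 n⟩ z hz).symm
  simp only [p6]
  refine tendsto_iff_norm_sub_tendsto_zero.2 (squeeze_zero (fun _ => norm_nonneg _)
    (g := fun n => 2 * 3 * (3 * (9 + 9) * (1 / 2) ^ n / (1 - 1 / 2)) * Real.exp (|z.im| * 3))
    (fun n => ?_) ?_)
  · rw [ft, ft, ← cv_sub ⟨_, _, _, p2 n⟩ ⟨_, _, _, p5⟩ (ex_cont z)]
    refine cv_le (by norm_num) (fun t ht => by simp [(p2 n).supp t ht, p5.supp t ht])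
      (fun t => ?_) fun t ht => ?_
    · rw [Pi.sub_apply, ← dist_eq_norm]
      exact dist_le_of_le_geometric_of_tendsto (1 / 2) _ (by norm_num) (p3 t) (p4 t) n
    · rw [norm_ex, Real.exp_le_exp]
      refine (neg_le_abs _).trans ?_
      rw [abs_mul, zero_sub, abs_neg]
      gcongr
  · simpa using ((((tendsto_pow_atTop_nhds_zero_of_lt_one (r := (1 / 2 : ℝ)) (by norm_num)
      (by norm_num)).const_mul (3 * (9 + 9))).div_const (1 - 1 / 2)).const_mul (2 * 3)).mul_const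
        (Real.exp (|z.im| * 3))

end Pool.Agent.P.MP_2fa38d_an.NB
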