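import Pool.Agent.P.MP_2fa38d_an.NB.It

/-! The starting function, the frequencies and lower bounds for the symbols. -/

set_option autoImplicit false

namespace Pool.Agent.P.MP_2fa38d_an.NB

open Finset Complex MeasureTheory Filter Topology

/-- hat function -/
noncomputable def hat (t : ℝ) : ℂ := (max (1 - |t|) 0 : ℝ)

/-- frequencies of one block -/
noncomputable def lam (x L : ℝ) : ℕ → ℂ
  | 0 => (x ^ 8 : ℝ) - I * x
  | j + 1 => (x ^ 8 : ℝ) - I * (x ^ 2 : ℝ) + j / L

variable {R x y L ε : ℝ} {z l : ℂ}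

theorem hat_cl : Cl 1 1 1 hat := by
  refine ⟨fun t ht => by simp [hat, ht.le], fun t => ?_, fun t u => ?_⟩
  · rw [hat, norm_real, Real.norm_of_nonneg (le_max_right _ _)]
    exact max_le (by linarith [abs_nonneg t]) zero_le_one
  · rw [hat, hat, ← ofReal_sub, norm_real, one_mul]
    refine (abs_max_sub_max_le_abs _ _ _).trans ?_
    rw [sub_sub_sub_cancel_left, abs_sub_comm]
    exact abs_abs_sub_abs_le_abs_sub t u

theorem ft_hat (hz : z ≠ 0) : ft hat z * z ^ 2 = 2 - ex z 1 - ex z (-1) := by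
  have c : Continuous fun t => hat t * ex z (0 - t) := hat_cl.cont.mul (by fun_prop)
  have d : ∀ (σ : ℝ) (t : ℝ), HasDerivAt (fun t : ℝ => (I * (1 - σ * t) / z - σ / z ^ 2) * ex z (0 - t))
      ((1 - σ * t) * ex z (0 - t)) t := fun σ t => by
    refine (((((hasDerivAt_id t).ofReal_comp.const_mul (σ : ℂ)).const_sub 1).const_mul I).div_const z
      |>.sub_const (σ / z ^ 2) |>.mul ((ex_deriv z (0 - t)).comp_const_sub 0 t)).congr_deriv ?_
    simp only [id, ofReal_one]
    field_simp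
    linear_combination (-(z * (1 - σ * t) * ex z (0 - t))) * I_sq
  have e : ∀ (σ a b : ℝ), (∀ t ∈ Set.uIcc a b, |t| = σ * t ∧ |t| ≤ 1) →
      ∫ t in a..b, hat t * ex z (0 - t) = (I * (1 - σ * b) / z - σ / z ^ 2) * ex z (0 - b) -
        (I * (1 - σ * a) / z - σ / z ^ 2) * ex z (0 - a) := fun σ a b h => by
    rw [← intervalIntegral.integral_eq_sub_of_hasDerivAt (fun t _ => d σ t)
      (Continuous.intervalIntegrable (by fun_prop) _ _)]
    refine intervalIntegral.integral_congr fun t ht => ?_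
    simp only [hat]
    rw [max_eq_left (by linarith [(h t ht).2]), (h t ht).1]
    push_cast
    rfl
  rw [ft, cv, ← intervalIntegral.integral_eq_integral_of_support_subset (a := -1) (b := 1)
    (fun t ht => by
      have : |t| < 1 := not_le.1 fun h => ht (by simp [hat, h])
      exact ⟨(abs_lt.1 this).1, (abs_lt.1 this).2.le⟩),
    ← intervalIntegral.integral_add_adjacent_intervals (b := 0) (c.intervalIntegrable _ _)
      (c.intervalIntegrable _ _), e (-1), e 1]
  · simp only [ex]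
    push_cast
    field_simp
    simp
    ring
  · intro t ht
    rw [Set.uIcc_of_le zero_le_one] at ht
    rw [abs_of_nonneg ht.1]
    exact ⟨(one_mul t).symm, ht.2⟩
  · intro t ht
    rw [Set.uIcc_of_le (by norm_num)] at ht
    rw [abs_of_nonpos ht.2]
    exact ⟨(neg_one_mul t).symm, by linarith [ht.1]⟩

theorem hat_low (hz : 3 ≤ -z.im) : 1 ≤ ‖ft hat z‖ * ‖z‖ ^ 2 := by
  rw [← norm_pow, ← norm_mul, ft_hat (by rintro rfl; norm_num at hz)]
  have h1 := norm_ex z 1
  have h2 := norm_ex z (-1)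
  have h3 := norm_sub_norm_le (ex z 1) (2 - ex z (-1))
  have h4 := norm_sub_le 2 (ex z (-1))
  have h5 : Real.exp (-(z.im * -1)) ≤ 1 := Real.exp_le_one_iff.2 (by linarith)
  have h6 := Real.add_one_le_exp (-(z.im * 1))
  rw [norm_sub_rev (ex z 1), sub_right_comm] at h3
  rw [Complex.norm_two] at h4
  linarith

theorem cos_low (hz : 0 ≤ -z.im) : -z.im ≤ ‖cos z‖ := by
  have h1 := norm_sub_norm_le (exp (z * I)) (-exp (-z * I))
  rw [sub_neg_eq_add, norm_neg, norm_exp, norm_exp] at h1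
  have h2 := Real.self_le_sinh_iff.2 hz
  rw [Real.sinh_eq] at h2
  rw [cos, norm_div, Complex.norm_two]
  simp at h1 h2 ⊢
  linarith

theorem cos_low' (hz : ‖z‖ ≤ 1) : 1 - ‖z‖ ≤ ‖cos z‖ := by
  have h1 := Complex.cos_bound hz
  have h2 := norm_sub_norm_le (1 - z ^ 2 / 2) (cos z)
  have h3 := norm_sub_norm_le 1 (z ^ 2 / 2)
  rw [norm_sub_rev] at h1
  rw [norm_one, norm_div, norm_pow, Complex.norm_two] at h3
  have h0 := norm_nonneg z
  nlinarith [pow_le_of_le_one h0 hz (n := 2) (by norm_num), pow_le_of_le_one h0 hz (n := 4) (by norm_num)]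

theorem fac_eq (hR : 0 < R) (hl : l ≠ 0) (hz : z ≠ R) :
    ‖(1 - z / l) * mm R z‖ * (‖l‖ * ‖R - z‖) = ‖cos (aa R * z)‖ * (R * ‖l - z‖) := by
  have R0 : (R : ℂ) ≠ 0 := by exact_mod_cast hR.ne'
  have := sub_ne_zero.2 hz.symm
  have e : (1 - z / l) * mm R z * (l * (R - z)) = cos (aa R * z) * (R * (l - z)) := by
    rw [mm]; field_simp
  simpa only [norm_mul, norm_real, Real.norm_of_nonneg hR.le] using congrArg norm e

theorem fac_far (hR : 0 < R) {d : ℝ} (hl : ‖l - R‖ ≤ d) (hd : 4 * d ≤ R) (h1 : R ≤ -z.im) :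
    Real.exp (-1) ≤ ‖(1 - z / l) * mm R z‖ := by
  have h2 : ‖(R : ℂ)‖ = R := by simp [hR.le]
  have h3 := norm_sub_norm_le l R
  have h4 := norm_sub_norm_le (R : ℂ) l
  rw [norm_sub_rev] at h4
  have h5 : -z.im ≤ ‖R - z‖ := by simpa using im_le_norm (R - z)
  have h6 := norm_sub_le (l - z) (l - R)
  rw [sub_sub_sub_cancel_left] at h6
  have h7 := cos_low (z := aa R * z) (by simp; nlinarith [aa_pos hR])
  have h8 : 1 ≤ ‖cos (aa R * z)‖ := by
    refine le_trans ?_ h7
    simp only [mul_im, ofReal_re, ofReal_im, zero_mul, add_zero]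
    nlinarith [aa_pos hR, aa_mul hR, Real.pi_gt_three]
  have h9 := fac_eq hR (l := l) (z := z) (by rintro rfl; rw [norm_zero] at h4; linarith)
    (by rintro rfl; simp at h1; linarith)
  have h10 : Real.exp (-1) ≤ 1 / 2 := by
    rw [Real.exp_neg, ← one_div]
    exact one_div_le_one_div_of_le two_pos (by linarith [Real.add_one_le_exp 1])
  refine h10.trans (le_of_mul_le_mul_right (a := ‖l‖ * ‖R - z‖) ?_ (mul_pos (by linarith) (by linarith)))
  rw [h9]
  calc 1 / 2 * (‖l‖ * ‖R - z‖) ≤ 1 / 2 * ((5 / 4 * R) * (4 / 3 * ‖l - z‖)) := by gcongr <;> linarith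
    _ ≤ 1 * (R * ‖l - z‖) := by nlinarith [mul_nonneg hR.le (norm_nonneg (l - z))]
    _ ≤ _ := by gcongr

theorem fac_near (hR : 0 < R) {d w : ℝ} (hl : ‖l - R‖ ≤ d) (hd : 4 * d ≤ R) (h1 : ‖z‖ ≤ w * R)
    (hw : w ≤ 1 / 10) : Real.exp (-(10 * w)) ≤ ‖(1 - z / l) * mm R z‖ := by
  have h2 : ‖(R : ℂ)‖ = R := by simp [hR.le]
  have w0 : 0 ≤ w := nonneg_of_mul_nonneg_left ((norm_nonneg z).trans h1) hR
  have h4 := norm_sub_norm_le (R : ℂ) l
  rw [norm_sub_rev] at h4
  have h5 := norm_sub_le (R : ℂ) z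
  have h5' := norm_sub_norm_le (R : ℂ) z
  have h6 := norm_sub_norm_le l z
  have h7 : ‖aa R * z‖ ≤ 2 * w := by
    rw [norm_mul, norm_real, Real.norm_of_nonneg (aa_pos hR).le]
    nlinarith [aa_pos hR, aa_mul hR, Real.pi_le_four]
  have h8 := cos_low' (h7.trans (by linarith))
  have h9 := fac_eq hR (l := l) (z := z) (by rintro rfl; rw [norm_zero] at h4; linarith)
    (by rintro rfl; nlinarith)
  have h10 : Real.exp (-(10 * w)) ≤ 1 - 5 * w := by
    rw [Real.exp_neg, inv_le_iff_one_le_mul₀ (Real.exp_pos _)]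
    nlinarith [Real.add_one_le_exp (10 * w)]
  refine h10.trans (le_of_mul_le_mul_right (a := ‖l‖ * ‖R - z‖) ?_ (mul_pos (by linarith) (by nlinarith)))
  rw [h9]
  have l0 : 0 ≤ R * ‖l‖ := by positivity
  calc (1 - 5 * w) * (‖l‖ * ‖R - z‖) ≤ (1 - 5 * w) * (‖l‖ * ((1 + w) * R)) := by gcongr <;> linarith
    _ ≤ (1 - 2 * w) * (R * ((1 - 2 * w) * ‖l‖)) := by nlinarith [mul_nonneg l0 (sq_nonneg w)]
    _ ≤ _ := by
      gcongr
      · exact mul_nonneg hR.le (mul_nonneg (by linarith) (norm_nonneg _))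
      · linarith
      · nlinarith

theorem mm_low (hx : 0 < x) : Real.pi / 2 ≤ ‖mm (x ^ 8) (lam x L 0)‖ := by
  have hR : 0 < x ^ 8 := by positivity
  have h1 := cos_low (z := aa (x ^ 8) * lam x L 0) (by
    simp only [lam, mul_im, ofReal_re, ofReal_im, sub_im, I_re, I_im]; nlinarith [aa_pos hR])
  have h2 : 1 - lam x L 0 / (x ^ 8 : ℝ) = I * (x / x ^ 8 : ℝ) := by
    have : (x : ℂ) ≠ 0 := by exact_mod_cast hx.ne'
    rw [lam]; push_cast; field_simp; ring
  rw [mm, h2, norm_div, norm_mul, norm_I, one_mul, norm_real, Real.norm_of_nonneg (by positivity),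
    le_div_iff₀ (by positivity), ← aa_mul hR]
  refine le_trans (le_of_eq ?_) h1
  simp only [lam, mul_im, ofReal_re, ofReal_im, sub_im, I_re, I_im]
  field_simp
  ring

theorem lam_im (hx : 1 ≤ x) (i : ℕ) : (lam x L i).im < 0 := by
  cases i <;> simp only [lam, mul_im, ofReal_re, ofReal_im, sub_im, add_im, I_re, I_im,
    ← ofReal_natCast, ← ofReal_div] <;> nlinarith

theorem lam_ne (hx : 1 ≤ x) (i : ℕ) (r : ℝ) : lam x L i ≠ r := fun h => by
  simpa [h] using lam_im hx (L := L) i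

theorem lam_inj (hx : 1 < x) (hL : 0 < L) (n i : ℕ) (h : n < i) : lam x L i ≠ lam x L n := by
  obtain ⟨i, rfl⟩ : ∃ j, i = j + 1 := ⟨i - 1, by omega⟩
  intro e
  cases n with
  | zero =>
    have := congrArg im e
    simp only [lam, mul_im, ofReal_re, ofReal_im, sub_im, add_im, I_re, I_im,
      ← ofReal_natCast, ← ofReal_div] at this
    nlinarith
  | succ n =>
    have : (L : ℂ) ≠ 0 := by exact_mod_cast hL.ne'
    simp [lam, this] at e
    omega

theorem lam_near (hx : 1 ≤ x) (hL : 1 ≤ L) {i : ℕ} (hi : (i : ℝ) ≤ x ^ 3 + 1) :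
    ‖lam x L i - (x ^ 8 : ℝ)‖ ≤ 2 * x ^ 3 := by
  have h1 : x ≤ x ^ 2 := le_self_pow₀ hx two_ne_zero
  have h2 : x ^ 2 ≤ x ^ 3 := pow_le_pow_right₀ hx (by norm_num)
  cases i with
  | zero =>
    rw [lam, sub_sub_cancel_left, norm_neg, norm_mul, norm_I, norm_real,
      Real.norm_of_nonneg (by linarith)]
    linarith
  | succ i =>
    rw [lam, add_sub_right_comm, sub_sub_cancel_left]
    refine (norm_add_le _ _).trans ?_
    rw [norm_neg, norm_mul, norm_I, norm_real, Real.norm_of_nonneg (by linarith), norm_div,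
      norm_real, Real.norm_of_nonneg (by linarith), Complex.norm_natCast]
    push_cast at hi
    linarith [div_le_self i.cast_nonneg hL]

end Pool.Agent.P.MP_2fa38d_an.NB
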