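import Pool.Agent.P.MP_2fa38d_an.NB.Ub

/-! The coefficient functionals of a basis are equicontinuous. -/

set_option autoImplicit false

namespace Pool.Agent.P.MP_2fa38d_an.NB

open Finset Filter Topology

variable {V : Type} [AddCommGroup V] [Module ℂ V] {p : ℕ → Seminorm ℂ V} {e : ℕ → V}

/-- the series with coefficients `c` converges to `x` -/
def Cv (p : ℕ → Seminorm ℂ V) (e : ℕ → V) (c : ℕ → ℂ) (x : V) : Prop :=
  ∀ n, Tendsto (fun N => p n (x - ∑ j ∈ range N, c j • e j)) atTop (𝓝 0)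

theorem Cv.add {c d : ℕ → ℂ} {x y : V} (h : Cv p e c x) (h' : Cv p e d y) :
    Cv p e (c + d) (x + y) := fun n => by
  refine squeeze_zero (fun _ => apply_nonneg _ _) (fun N => ?_) (by simpa using (h n).add (h' n))
  refine le_trans (le_of_eq ?_) (map_add_le_add _ _ _)
  simp only [Pi.add_apply, add_smul, sum_add_distrib]
  congr 1; abel

theorem Cv.smul {c : ℕ → ℂ} {x : V} (h : Cv p e c x) (a : ℂ) : Cv p e (a • c) (a • x) := fun n => by
  have := (h n).const_mul ‖a‖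
  rw [mul_zero] at this
  refine this.congr fun N => ?_
  rw [← map_smul_eq_mul, smul_sub, smul_sum]
  simp only [Pi.smul_apply, smul_eq_mul, mul_smul]

theorem cv_single (j : ℕ) : Cv p e (Pi.single j 1) (e j) := fun n => by
  refine tendsto_const_nhds.congr' ?_
  filter_upwards [eventually_gt_atTop j] with N hN
  rw [sum_eq_single_of_mem j (mem_range.2 hN) fun i _ h => by simp [h]]
  simp

theorem sn_lim (P : Seminorm ℂ V) (N : ℕ) {u : ℕ → ℕ → ℂ} {c : ℕ → ℂ}
    (h : ∀ j, Tendsto (fun K => u K j) atTop (𝓝 (c j))) {B : ℝ}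
    (hB : ∀ K, P (∑ j ∈ range N, u K j • e j) ≤ B) : P (∑ j ∈ range N, c j • e j) ≤ B := by
  have h1 : Tendsto (fun K => B + ∑ j ∈ range N, ‖c j - u K j‖ * P (e j)) atTop
      (𝓝 (B + ∑ j ∈ range N, ‖c j - c j‖ * P (e j))) :=
    (tendsto_finsetSum _ fun j _ => ((h j).const_sub _).norm.mul_const _).const_add B
  simp only [sub_self, norm_zero, zero_mul, sum_const_zero, add_zero] at h1
  refine ge_of_tendsto' h1 fun K => ?_
  have h2 : ∑ j ∈ range N, c j • e j =
      ∑ j ∈ range N, u K j • e j + ∑ j ∈ range N, (c j - u K j) • e j := by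
    simp [← sum_add_distrib, ← add_smul]
  rw [h2]
  refine (map_add_le_add _ _ _).trans (add_le_add (hB K) ((sn_sum _ _ _).trans ?_))
  simp [map_smul_eq_mul]

theorem om (hm : Monotone p) (hc : Cpl p) (hb : ∀ x, ∃! c, Cv p e c x) :
    ∃ ξ : V →ₗ[ℂ] (ℕ → ℂ), (∀ x, Cv p e (ξ x) x) ∧ (∀ j, ξ (e j) = Pi.single j 1) ∧
      ∀ n, ∃ (a : ℕ) (C : ℝ), 1 ≤ C ∧ ∀ x j, ‖ξ x j‖ * p n (e j) ≤ C * p a x := by
  choose ξ0 h1 h2 using hb
  let ξ : V →ₗ[ℂ] (ℕ → ℂ) :=
    { toFun := ξ0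
      map_add' := fun x y => (h2 _ _ ((h1 x).add (h1 y))).symm
      map_smul' := fun a x => (h2 _ _ ((h1 x).smul a)).symm }
  have h1 : ∀ x, Cv p e (ξ x) x := h1
  have h2 : ∀ x c, Cv p e c x → c = ξ x := h2
  clear_value ξ
  refine ⟨ξ, h1, fun j => (h2 _ _ (cv_single j)).symm, ?_⟩
  let S : ℕ → V →ₗ[ℂ] V := fun N =>
    ∑ j ∈ range N, ((LinearMap.proj j).comp ξ).smulRight (e j)
  have hS : ∀ N x, S N x = ∑ j ∈ range N, ξ x j • e j := fun N x => by
    simp [S, LinearMap.sum_apply]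
  have hbd : ∀ n, BddAbove (Set.range fun N => (p n).comp (S N)) := fun n =>
    Seminorm.bddAbove_range_iff.2 fun x => by
      obtain ⟨B, hB⟩ := (h1 x n).bddAbove_range
      refine ⟨p n x + B, ?_⟩
      rintro _ ⟨N, rfl⟩
      have := map_sub_le_add (p n) x (x - S N x)
      rw [sub_sub_cancel] at this
      refine this.trans (add_le_add le_rfl (hB ⟨N, by rw [hS]⟩))
  obtain ⟨q, q1, q2⟩ : ∃ q : ℕ → Seminorm ℂ V, (∀ n N x, p n (S N x) ≤ q n x) ∧
      ∀ n x B, (∀ N, p n (S N x) ≤ B) → q n x ≤ B :=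
    ⟨fun n => ⨆ N, (p n).comp (S N), fun n N x => le_ciSup (hbd n) N x, fun n x B h => by
      rw [Seminorm.iSup_apply (hbd n)]; exact ciSup_le h⟩
  have qm : ∀ n l x, n ≤ l → q n x ≤ q l x := fun n l x h =>
    q2 _ _ _ fun N => (hm h _).trans (q1 _ _ _)
  have q3 : ∀ n x j, ‖ξ x j‖ * p n (e j) ≤ 2 * q n x := fun n x j => by
    have := map_sub_le_add (p n) (S (j + 1) x) (S j x)
    rw [hS (j + 1), sum_range_succ, ← hS, add_sub_cancel_left, map_smul_eq_mul, hS j,
      ← sum_range_succ (fun j => ξ x j • e j), ← hS, ← hS] at this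
    linarith [q1 n (j + 1) x, q1 n j x]
  have key : ∀ n, ∃ (a : ℕ) (C : ℝ), 1 ≤ C ∧ ∀ (x : V) (m : ℕ) (δ : ℝ), ∃ y, 0 < δ →
      q n y ≤ C * p a x + δ ∧ p m (x - y) ≤ δ := fun n => by
    have ap : ∀ (m : ℕ) x, (q n ⊓ (m : NNReal) • p m) x = ⨅ u, q n u + m * p m (x - u) :=
      fun m x => rfl
    have bb : ∀ (m : ℕ) x u, (q n ⊓ (m : NNReal) • p m) x ≤ q n u + m * p m (x - u) :=
      fun m x u => ciInf_le Seminorm.bddBelow_range_add u
    obtain ⟨a, C, hC, h⟩ := ub hm hc (fun m : ℕ => q n ⊓ (m : NNReal) • p m)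
      (fun m => ⟨m, m, fun x => by simpa using bb m x 0⟩)
      fun x => ⟨q n x, fun m => by simpa using bb m x x⟩
    refine ⟨a, C, hC, fun x m δ => ?_⟩
    by_cases hδ : 0 < δ
    swap
    · exact ⟨0, fun h => absurd h hδ⟩
    obtain ⟨M, hM⟩ := exists_nat_gt ((C * p a x + δ) / δ + m)
    have t0 : 0 ≤ (C * p a x + δ) / δ := by positivity
    have h3 := (h M x).trans_lt (lt_add_of_pos_right _ hδ)
    rw [ap] at h3
    obtain ⟨y, hy⟩ := exists_lt_of_ciInf_lt h3
    have h4 : p m (x - y) ≤ p M (x - y) := hm (by exact_mod_cast (by linarith : (m : ℝ) ≤ M)) _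
    have h5 : C * p a x + δ ≤ M * δ := by
      rw [← div_le_iff₀ hδ]; linarith [Nat.cast_nonneg (α := ℝ) m]
    have M0 : (0 : ℝ) < M := by linarith [Nat.cast_nonneg (α := ℝ) m]
    refine ⟨y, fun _ => ⟨?_, h4.trans (le_of_mul_le_mul_left ?_ M0)⟩⟩
    · linarith [mul_nonneg M0.le (apply_nonneg (p M) (x - y))]
    · linarith [apply_nonneg (q n) y]
  choose a C hC Y hY using key
  have pos : ∀ j, ∃ l, 0 < p l (e j) := fun j => by
    by_contra hn
    push Not at hn
    have h3 : Cv p e 0 (e j) := fun l => by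
      simpa using le_antisymm (hn l) (apply_nonneg _ _)
    simpa using congrFun ((h2 _ _ h3).trans (h2 _ _ (cv_single j)).symm) j
  intro n
  suffices H : ∀ x, q n x ≤ C n * p (a n) x from
    ⟨a n, 2 * C n, by linarith [hC n], fun x j => by linarith [q3 n x j, H x]⟩
  refine fun x => le_of_forall_pos_le_add fun ε hε => ?_
  let δ : ℕ → ℝ := fun k => ε / 8 * (1 / 2) ^ k / C (n + k + 1)
  have C0 : ∀ l, 0 < C l := fun l => one_pos.trans_le (hC l)
  have δ0 : ∀ k, 0 < δ k := fun k => by have := C0 (n + k + 1); positivity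
  have δ1 : ∀ k, δ k ≤ ε / 8 * (1 / 2) ^ k := fun k => div_le_self (by positivity) (hC _)
  let r : ℕ → V := fun k => Nat.rec x
    (fun k r => r - Y (n + k) r (max (a (n + k + 1)) k) (δ k)) k
  let y : ℕ → V := fun k => Y (n + k) (r k) (max (a (n + k + 1)) k) (δ k)
  have hr : ∀ k, r k = x - ∑ l ∈ range k, y l := fun k => by
    induction k with
    | zero => simp [r]
    | succ k ih => rw [sum_range_succ, ← sub_sub, ← ih]
  have y1 : ∀ k, q (n + k) (y k) ≤ C (n + k) * p (a (n + k)) (r k) + δ k := fun k =>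
    (hY _ _ _ _ (δ0 k)).1
  have y2 : ∀ k l, l ≤ max (a (n + k + 1)) k → p l (r (k + 1)) ≤ δ k := fun k l h =>
    (hm h _).trans (hY _ _ _ _ (δ0 k)).2
  have y3 : ∀ k l, l ≤ n + k + 1 → q l (y (k + 1)) ≤ ε / 4 * (1 / 2) ^ k := fun k l h => by
    have h3 := mul_le_mul_of_nonneg_left (y2 k _ (le_max_left _ _)) (C0 (n + k + 1)).le
    rw [show C (n + k + 1) * δ k = ε / 8 * (1 / 2) ^ k from mul_div_cancel₀ _ (C0 _).ne'] at h3
    have h4 := δ1 (k + 1)
    have h5 : 0 < ε / 8 * (1 / 2) ^ k := by positivity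
    rw [pow_succ] at h4
    have h6 := y1 (k + 1)
    rw [← add_assoc] at h6
    linarith [qm l _ (y (k + 1)) h]
  have sm : ∀ j, Summable fun k => ξ (y k) j := fun j => by
    obtain ⟨l, hl⟩ := pos j
    refine (summable_nat_add_iff (l + 1)).1 (Summable.of_norm_bounded
      (((summable_nat_add_iff l).2 summable_geometric_two).mul_left (ε / 2 / p l (e j)))
      fun k => ?_)
    rw [div_mul_eq_mul_div, le_div_iff₀ hl, ← add_assoc]
    linarith [q3 l (y (k + l + 1)) j, y3 (k + l) l (by omega)]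
  have tl : ∀ K l N, l ≤ n + K + 1 → p l (∑ j ∈ range N, (∑' k, ξ (y (k + (K + 1))) j) • e j) ≤
      ε / 2 * (1 / 2) ^ K := fun K l N h => by
    refine sn_lim _ N (fun j => ((summable_nat_add_iff (K + 1)).2 (sm j)).hasSum.tendsto_sum_nat)
      fun L => ?_
    have h3 : ∑ j ∈ range N, (∑ k ∈ range L, ξ (y (k + (K + 1))) j) • e j =
        ∑ k ∈ range L, S N (y (k + (K + 1))) := by
      simp only [hS, sum_smul]
      exact sum_comm
    rw [h3]
    refine (sn_sum _ _ _).trans ((sum_le_sum (g := fun k => ε / 4 * (1 / 2) ^ K * (1 / 2) ^ k)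
      fun k _ => (q1 _ _ _).trans ((y3 (k + K) l (by omega)).trans_eq (by ring))).trans ?_)
    rw [← mul_sum]
    linarith [mul_le_mul_of_nonneg_left (geo_le L) (by positivity : 0 ≤ ε / 4 * (1 / 2) ^ K)]
  have sp : ∀ K N, ∑ j ∈ range N, (∑' k, ξ (y k) j) • e j = S N (∑ l ∈ range (K + 1), y l) +
      ∑ j ∈ range N, (∑' k, ξ (y (k + (K + 1))) j) • e j := fun K N => by
    rw [hS, ← sum_add_distrib]
    refine sum_congr rfl fun j _ => ?_
    rw [← add_smul, map_sum, Finset.sum_apply, (sm j).sum_add_tsum_nat_add]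
  have cv : Cv p e (fun j => ∑' k, ξ (y k) j) x := fun l => by
    refine Metric.tendsto_atTop.2 fun η hη => ?_
    obtain ⟨K, hK, hl⟩ := (((tendsto_pow_atTop_nhds_zero_of_lt_one (r := (1 / 2 : ℝ))
      (by norm_num) (by norm_num)).const_mul ε).eventually_lt_const (u := η / 2)
      (by linarith) |>.and (eventually_ge_atTop l)).exists
    obtain ⟨N0, hN⟩ := Metric.tendsto_atTop.1 (h1 (∑ l ∈ range (K + 1), y l) l) (η / 2)
      (by linarith)
    refine ⟨N0, fun N h => ?_⟩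
    have h3 := hN N h
    rw [Real.dist_eq, sub_zero, abs_of_nonneg (apply_nonneg _ _)] at h3 ⊢
    rw [← hS] at h3
    have h4 := (y2 K l (hl.trans (le_max_right _ _))).trans (δ1 K)
    rw [hr (K + 1)] at h4
    rw [sp K N]
    generalize ∑ l ∈ range (K + 1), y l = Z at *
    have h5 := tl K l N (by omega)
    generalize ∑ j ∈ range N, (∑' k, ξ (y (k + (K + 1))) j) • e j = Z' at *
    rw [show x - (S N Z + Z') = (x - Z) + (Z - S N Z) - Z' by abel]
    have h6 : 0 < ε * (1 / 2) ^ K := by positivity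
    linarith [map_sub_le_add (p l) ((x - Z) + (Z - S N Z)) Z',
      map_add_le_add (p l) (x - Z) (Z - S N Z)]
  refine q2 _ _ _ fun N => ?_
  rw [hS, ← h2 _ _ cv, sp 0 N]
  have h3 := y1 0
  have h4 := δ1 0
  have h5 := tl 0 n N (by omega)
  have h6 := q1 n N (y 0)
  refine (map_add_le_add _ _ _).trans ?_
  simp only [add_zero, zero_add, pow_zero, mul_one, range_one, sum_singleton] at *
  have h7 : r 0 = x := rfl
  rw [h7] at h3
  linarith

end Pool.Agent.P.MP_2fa38d_an.NB
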