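import Mathlib

/-! Averaging operators on Lipschitz functions with compact support. -/

set_option autoImplicit false

namespace Pool.Agent.P.MP_2fa38d_an.NB

open Finset Complex MeasureTheory

noncomputable section

/-- exponential -/
def ex (z : ℂ) (t : ℝ) : ℂ := exp (I * z * t)
/-- convolution -/
def cv (φ f : ℝ → ℂ) (x : ℝ) : ℂ := ∫ t, φ t * f (x - t)
/-- Fourier-Laplace transform -/
def ft (φ : ℝ → ℂ) (z : ℂ) : ℂ := cv φ (ex z) 0
/-- quarter period -/
def aa (R : ℝ) : ℝ := Real.pi / (2 * R)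
/-- modulated average -/
def SS (R : ℝ) (φ : ℝ → ℂ) (x : ℝ) : ℂ := (R / 2 : ℝ) * ∫ t in (-aa R)..aa R, ex R t * φ (x - t)
/-- the operator that creates the zero `l` -/
def NN (R : ℝ) (l : ℂ) (φ : ℝ → ℂ) (x : ℝ) : ℂ :=
  R / l * ((φ (x - -aa R) + φ (x - aa R)) / 2) + (1 - R / l) * SS R φ x
/-- symbol of `SS` -/
def mm (R : ℝ) (z : ℂ) : ℂ := cos (aa R * z) / (1 - z / R)

/-- support, bound and Lipschitz constant -/
structure Cl (s A Λ : ℝ) (φ : ℝ → ℂ) : Prop where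
  supp : ∀ t, s < |t| → φ t = 0
  bd : ∀ t, ‖φ t‖ ≤ A
  lip : ∀ t u, ‖φ t - φ u‖ ≤ Λ * |t - u|
/-- qualitative form -/
def Cc (φ : ℝ → ℂ) : Prop := ∃ s A Λ, Cl s A Λ φ

/-- local operators -/
def Loc (T : (ℝ → ℂ) → ℝ → ℂ) (a θ : ℝ) : Prop := T 0 = 0 ∧
  ∀ φ ψ : ℝ → ℂ, Continuous φ → Continuous ψ → ∀ x y B : ℝ,
    (∀ t, |t| ≤ a → ‖φ (x - t) - ψ (y - t)‖ ≤ B) → ‖T φ x - T ψ y‖ ≤ θ * B

end

variable {s A Λ R : ℝ} {φ ψ f : ℝ → ℂ} {l z : ℂ}

theorem ex_add (z : ℂ) (t u : ℝ) : ex z (t + u) = ex z t * ex z u := by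
  simp [ex, mul_add, exp_add]
theorem ex_ne (z : ℂ) (t : ℝ) : ex z t ≠ 0 := exp_ne_zero _
theorem norm_ex (z : ℂ) (t : ℝ) : ‖ex z t‖ = Real.exp (-(z.im * t)) := by
  simp [ex, norm_exp]
@[fun_prop] theorem ex_cont (z : ℂ) : Continuous (ex z) := by unfold ex; fun_prop
theorem ex_deriv (z : ℂ) (t : ℝ) : HasDerivAt (ex z) (I * z * ex z t) t := by
  exact (((hasDerivAt_id (t : ℂ)).const_mul (I * z)).cexp.comp_ofReal).congr_deriv
    (by simp [ex, mul_comm])

theorem Cl.A0 (h : Cl s A Λ φ) : 0 ≤ A := (norm_nonneg _).trans (h.bd 0)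
theorem Cl.L0 (h : Cl s A Λ φ) : 0 ≤ Λ := by simpa using (norm_nonneg _).trans (h.lip 1 0)
theorem Cl.cont (h : Cl s A Λ φ) : Continuous φ :=
  (LipschitzWith.of_dist_le' (K := Λ) fun t u => by rw [dist_eq_norm]; exact h.lip t u).continuous
theorem Cl.mono (h : Cl s A Λ φ) {s' A' Λ' : ℝ} (h1 : s ≤ s') (h2 : A ≤ A') (h3 : Λ ≤ Λ') :
    Cl s' A' Λ' φ :=
  ⟨fun t ht => h.supp t (h1.trans_lt ht), fun t => (h.bd t).trans h2,
    fun t u => (h.lip t u).trans (by gcongr)⟩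
theorem Cc.cont (h : Cc φ) : Continuous φ := let ⟨_, _, _, h⟩ := h; h.cont
theorem Cc.cs (h : Cc φ) : HasCompactSupport φ :=
  let ⟨s, _, _, h⟩ := h
  .intro (isCompact_Icc (a := -s) (b := s)) fun t ht => h.supp t (not_le.1 fun e => ht (abs_le.1 e))
theorem Cc.int (h : Cc φ) (hf : Continuous f) (x : ℝ) : Integrable fun t => φ t * f (x - t) :=
  (h.cont.mul (by fun_prop)).integrable_of_hasCompactSupport h.cs.mul_right

theorem cv_le {B x : ℝ} (s0 : 0 ≤ s) (h1 : ∀ t, s < |t| → φ t = 0) (h2 : ∀ t, ‖φ t‖ ≤ A)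
    (hB : ∀ t, |t| ≤ s → ‖f (x - t)‖ ≤ B) : ‖cv φ f x‖ ≤ 2 * s * A * B := by
  rw [cv, ← setIntegral_eq_integral_of_forall_compl_eq_zero (s := Set.Icc (-s) s) fun t ht => by
    rw [h1 t (not_le.1 fun e => ht (abs_le.1 e)), zero_mul]]
  refine (norm_setIntegral_le_of_norm_le_const (C := A * B) measure_Icc_lt_top
    fun t ht => ?_).trans_eq ?_
  · rw [norm_mul]
    exact mul_le_mul (h2 t) (hB t (abs_le.2 ht)) (norm_nonneg _) ((norm_nonneg _).trans (h2 0))
  · rw [Real.volume_real_Icc_of_le (by linarith)]; ring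

theorem cv_sub (h : Cc φ) (h' : Cc ψ) (hf : Continuous f) (x : ℝ) :
    cv (φ - ψ) f x = cv φ f x - cv ψ f x := by
  simp only [cv, Pi.sub_apply, sub_mul]
  exact integral_sub (h.int hf x) (h'.int hf x)

theorem cv_ex (φ : ℝ → ℂ) (z : ℂ) (x : ℝ) : cv φ (ex z) x = ft φ z * ex z x := by
  simp only [ft, cv, ← integral_mul_const, mul_assoc, ← ex_add]
  simp only [zero_sub, neg_add_eq_sub]

theorem ft_inj (h : Cc φ) (h' : Cc ψ) {K : Set ℝ} (hK : K.Countable)
    (e : ∀ ξ : ℝ, ξ ∉ K → ft φ ξ = ft ψ ξ) : φ = ψ := by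
  have h1 : FourierTransform.fourier (φ - ψ) =ᵐ[volume] 0 := by
    have : ((fun w : ℝ => 2 * Real.pi * w) ⁻¹' K).Countable :=
      hK.preimage (mul_right_injective₀ (by positivity))
    filter_upwards [this.ae_notMem volume] with w hw
    rw [Real.fourier_real_eq_integral_exp_smul, Pi.zero_apply, ← sub_eq_zero.2 (e _ hw), ft, ft,
      ← cv_sub h h' (ex_cont _)]
    refine integral_congr_ae (.of_forall fun t => ?_)
    simp only [ex, smul_eq_mul, mul_comm ((φ - ψ) t)]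
    congr 2
    push_cast; ring
  have h2 := (h.cont.sub h'.cont).fourierInv_fourier_eq
    ((h.cont.sub h'.cont).integrable_of_hasCompactSupport (h.cs.sub h'.cs))
    ((integrable_zero _ _ _).congr h1.symm)
  refine sub_eq_zero.1 (h2.symm.trans (funext fun v => ?_))
  rw [Real.fourierInv_eq]
  refine integral_eq_zero_of_ae ?_
  filter_upwards [h1] with w hw
  erw [hw]
  simp

theorem Cl.op {T : (ℝ → ℂ) → ℝ → ℂ} {a θ : ℝ} (hT : Loc T a θ) (h : Cl s A Λ φ) :
    Cl (s + a) (θ * A) (θ * Λ) (T φ) := by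
  have k : ∀ x B : ℝ, (∀ t, |t| ≤ a → ‖φ (x - t)‖ ≤ B) → ‖T φ x‖ ≤ θ * B := fun x B hB => by
    simpa [hT.1] using hT.2 φ 0 h.cont continuous_zero x 0 B (by simpa using hB)
  refine ⟨fun x hx => ?_, fun x => k x A fun t _ => h.bd _, fun x y => ?_⟩
  · simpa using k x 0 fun t ht => by
      rw [h.supp _ (by linarith [abs_sub_abs_le_abs_sub x t]), norm_zero]
  · rw [mul_assoc]
    exact hT.2 φ φ h.cont h.cont x y _ fun t _ => by simpa using h.lip (x - t) (y - t)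

theorem aa_pos (hR : 0 < R) : 0 < aa R := by unfold aa; positivity
theorem aa_mul (hR : 0 < R) : aa R * R = Real.pi / 2 := by unfold aa; field_simp

theorem loc_S (hR : 0 < R) : Loc (SS R) (aa R) (Real.pi / 2) := by
  refine ⟨by ext; simp [SS], fun φ ψ h h' x y B hB => ?_⟩
  have a0 := aa_pos hR
  rw [SS, SS, ← mul_sub, ← intervalIntegral.integral_sub
    (Continuous.intervalIntegrable (by fun_prop) _ _)
    (Continuous.intervalIntegrable (by fun_prop) _ _), norm_mul, norm_real,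
    Real.norm_of_nonneg (by positivity)]
  refine (mul_le_mul_of_nonneg_left (intervalIntegral.norm_integral_le_of_norm_le_const (C := B)
    fun t ht => ?_) (by positivity)).trans_eq ?_
  · rw [Set.uIoc_of_le (by linarith)] at ht
    rw [← mul_sub, norm_mul, norm_ex]
    simpa using hB t (abs_le.2 ⟨ht.1.le, ht.2⟩)
  · rw [abs_of_pos (by linarith), ← aa_mul hR]; ring

theorem loc_N (hR : 0 < R) {δ : ℝ} (hδ : ‖1 - R / l‖ ≤ δ) : Loc (NN R l) (aa R) (1 + 3 * δ) := by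
  refine ⟨by ext; simp [NN, (loc_S hR).1], fun φ ψ h h' x y B hB => ?_⟩
  have a0 := aa_pos hR
  have h1 := (loc_S hR).2 φ ψ h h' x y B hB
  have h2 := hB (aa R) (abs_of_pos a0).le
  have h3 := hB (-aa R) (by rw [abs_neg, abs_of_pos a0])
  have h4 : ‖(R : ℂ) / l‖ ≤ 1 + δ := by
    have := norm_sub_le 1 (1 - (R : ℂ) / l)
    rw [sub_sub_cancel, norm_one] at this
    linarith
  have B0 : 0 ≤ B := (norm_nonneg _).trans h2
  have δ0 : 0 ≤ δ := (norm_nonneg _).trans hδ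
  have h5 : NN R l φ x - NN R l ψ y = R / l * (((φ (x - -aa R) - ψ (y - -aa R)) +
      (φ (x - aa R) - ψ (y - aa R))) / 2) + (1 - R / l) * (SS R φ x - SS R ψ y) := by
    unfold NN; ring
  rw [h5]
  refine (norm_add_le_of_le (norm_mul_le_of_le h4 (r₂ := B) ?_) (norm_mul_le_of_le hδ h1)).trans ?_
  · rw [norm_div, Complex.norm_two]
    linarith [norm_add_le_of_le h3 h2]
  · nlinarith [mul_le_mul_of_nonneg_right Real.pi_le_four (mul_nonneg δ0 B0)]

theorem Cc.S (h : Cc φ) (hR : 0 < R) : Cc (SS R φ) :=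
  let ⟨_, _, _, h⟩ := h; ⟨_, _, _, h.op (loc_S hR)⟩
theorem Cc.N (h : Cc φ) (hR : 0 < R) (l : ℂ) : Cc (NN R l φ) :=
  let ⟨_, _, _, h⟩ := h; ⟨_, _, _, h.op (loc_N hR le_rfl)⟩

theorem Cl.near (h : Cl s A Λ φ) (hR : 0 < R) {δ : ℝ} (hδ : ‖1 - R / l‖ ≤ δ) (x : ℝ) :
    ‖NN R l φ x - φ x‖ ≤ aa R * Λ + 3 * δ * A := by
  have a0 := aa_pos hR
  have δ0 : 0 ≤ δ := (norm_nonneg _).trans hδ
  have h1 := (h.op (loc_S hR)).bd x
  have h2 := h.lip (x - -aa R) x
  have h3 := h.lip (x - aa R) x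
  rw [show x - -aa R - x = aa R by ring, abs_of_pos a0] at h2
  rw [show x - aa R - x = -aa R by ring, abs_neg, abs_of_pos a0] at h3
  have h5 : NN R l φ x - φ x = ((φ (x - -aa R) - φ x) + (φ (x - aa R) - φ x)) / 2 +
      (1 - R / l) * (SS R φ x - (φ (x - -aa R) + φ (x - aa R)) / 2) := by
    unfold NN; ring
  rw [h5]
  refine (norm_add_le_of_le (r₁ := aa R * Λ) ?_ (norm_mul_le_of_le hδ
    (norm_sub_le_of_le h1 (r₂ := A) ?_))).trans ?_
  · rw [norm_div, Complex.norm_two]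
    linarith [norm_add_le_of_le h3 h2, norm_add_le_of_le h2 h3]
  · rw [norm_div, Complex.norm_two]
    linarith [norm_add_le_of_le (h.bd (x - -aa R)) (h.bd (x - aa R))]
  · nlinarith [mul_le_mul_of_nonneg_right Real.pi_le_four (mul_nonneg δ0 h.A0)]

theorem S_deriv (h : Continuous φ) (hR : 0 < R) (hl : l ≠ 0) (x : ℝ) :
    HasDerivAt (SS R φ) (I * l * (SS R φ x - NN R l φ x)) x := by
  have c : Continuous fun y => ex (-R) y * φ y := by fun_prop
  have e : SS R φ = fun x => (R / 2 : ℝ) * (ex R x * ((∫ y in (0 : ℝ)..x - -aa R, ex (-R) y * φ y) -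
      ∫ y in (0 : ℝ)..x - aa R, ex (-R) y * φ y)) := funext fun x => by
    rw [SS, intervalIntegral.integral_interval_sub_left (c.intervalIntegrable _ _)
      (c.intervalIntegrable _ _), ← intervalIntegral.integral_comp_sub_left,
      ← intervalIntegral.integral_const_mul (ex R x)]
    congr 2
    ext t
    rw [← mul_assoc, ex, ex, ex, ← exp_add]
    congr 2
    push_cast; ring
  have d : ∀ b : ℝ, HasDerivAt (fun x => ∫ y in (0 : ℝ)..x - b, ex (-R) y * φ y)
      (ex (-R) (x - b) * φ (x - b)) x := fun b =>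
    (c.deriv_integral _ 0 (x - b) ▸ (intervalIntegral.integral_hasDerivAt_right
      (c.intervalIntegrable _ _) (c.stronglyMeasurableAtFilter _ _) c.continuousAt
        ).differentiableAt.hasDerivAt).comp_sub_const x b
  have k : ∀ b : ℝ, ex R x * ex (-R) (x - b) = exp (b * R * I) := fun b => by
    rw [ex, ex, ← exp_add]; congr 1; push_cast; ring
  have k1 := k (aa R)
  have k2 := k (-aa R)
  rw [← ofReal_mul, aa_mul hR] at k1
  rw [← ofReal_mul, neg_mul, aa_mul hR] at k2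
  push_cast at k1 k2
  rw [exp_pi_div_two_mul_I] at k1
  rw [← neg_div, exp_neg_pi_div_two_mul_I] at k2
  have := ((ex_deriv R x).mul ((d (-aa R)).sub (d (aa R)))).const_mul ((R / 2 : ℝ) : ℂ)
  rw [NN]
  nth_rewrite 1 [e]
  refine this.congr_deriv ?_
  rw [e]
  simp only [Pi.sub_apply, mul_sub (ex R x), ← mul_assoc (ex R x), k1, k2]
  push_cast
  field_simp
  ring

theorem cv_deriv (h : Cc φ) (hR : 0 < R) (hl : l ≠ 0) (hf : Continuous f) (x : ℝ) :
    HasDerivAt (cv (SS R φ) f) (I * l * (cv (SS R φ) f x - cv (NN R l φ) f x)) x := by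
  have e : deriv (SS R φ) = fun x => I * l * (SS R φ x - NN R l φ x) :=
    funext fun x => (S_deriv h.cont hR hl x).deriv
  have := (h.S hR).cs.hasDerivAt_convolution_left (ContinuousLinearMap.mul ℝ ℂ) (μ := volume)
    (contDiff_one_iff_deriv.2 ⟨fun x => (S_deriv h.cont hR hl x).differentiableAt,
      e ▸ continuous_const.mul ((h.S hR).cont.sub (h.N hR l).cont)⟩) hf.locallyIntegrable x
  refine this.congr_deriv ?_
  rw [← cv_sub (h.S hR) (h.N hR l) hf, e, cv, ← integral_const_mul]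
  simp [MeasureTheory.convolution, mul_assoc]

theorem ft_NS (h : Cc φ) (hR : 0 < R) (hl : l ≠ 0) (z : ℂ) :
    ft (NN R l φ) z = (1 - z / l) * ft (SS R φ) z := by
  have h1 := cv_deriv h hR hl (ex_cont z) 0
  rw [funext (cv_ex (SS R φ) z)] at h1
  have h2 := h1.unique ((ex_deriv z 0).const_mul _)
  simp only [ex, ofReal_zero, mul_zero, exp_zero, mul_one] at h2
  change I * l * (_ - ft _ z) = _ at h2
  field_simp
  linear_combination I * h2 - (l * (ft (SS R φ) z - ft (NN R l φ) z) - ft (SS R φ) z * z) * I_sq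

theorem ft_S (h : Cc φ) (hR : 0 < R) (hz : z ≠ R) : ft (SS R φ) z = mm R z * ft φ z := by
  have R0 : (R : ℂ) ≠ 0 := by exact_mod_cast hR.ne'
  have h1 := ft_NS h hR R0 z
  have q : ∀ b t : ℝ, -b - (t - b) = 0 - t := fun b t => by ring
  have k : ∀ b : ℝ, ∫ t, φ (t - b) * ex z (0 - t) = ft φ z * ex z (-b) := fun b => by
    rw [← cv_ex, cv, ← integral_sub_right_eq_self (fun t => φ t * ex z (-b - t)) b]
    simp only [q]
  have i : ∀ b : ℝ, Integrable fun t => φ (t - b) * ex z (0 - t) := fun b => by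
    simpa only [q] using (h.int (ex_cont z) (-b)).comp_sub_right b
  have h2 : ft (NN R R φ) z = cos (aa R * z) * ft φ z := by
    rw [ft, cv]
    simp only [NN, div_self R0, sub_self, zero_mul, add_zero, one_mul, div_mul_eq_mul_div,
      add_mul, integral_div]
    rw [integral_add (i _) (i _), k, k, cos, ex, ex]
    push_cast
    ring_nf
  rw [mm, div_mul_eq_mul_div, ← h2, h1, mul_div_cancel_left₀]
  rw [sub_ne_zero, ne_comm, Ne, div_eq_one_iff_eq R0]
  exact hz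

theorem ft_N (h : Cc φ) (hR : 0 < R) (hl : l ≠ 0) (hz : z ≠ R) :
    ft (NN R l φ) z = (1 - z / l) * mm R z * ft φ z := by
  rw [ft_NS h hR hl, ft_S h hR hz, mul_assoc]

end Pool.Agent.P.MP_2fa38d_an.NB
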