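import Pool.Agent.P.MP_2fa38d_an.NB.Dm

/-! Closed spaces of smooth functions. -/

set_option autoImplicit false

namespace Pool.Agent.P.MP_2fa38d_an.NB

open Finset Filter Topology
open scoped ContDiff

variable {W : Submodule ℂ (ℝ → ℂ)}

theorem cda {f : ℝ → ℂ} (h : ContDiff ℝ ∞ f) (i : ℕ) (x : ℝ) : ContDiffAt ℝ i f x :=
  (h.of_le (by exact_mod_cast le_top)).contDiffAt

theorem hda {f : ℝ → ℂ} (h : ContDiff ℝ ∞ f) (i : ℕ) (x : ℝ) :
    HasDerivAt (iteratedDeriv i f) (iteratedDeriv (i + 1) f x) x := by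
  rw [iteratedDeriv_succ]
  exact (h.differentiable_iteratedDeriv i (by exact_mod_cast ENat.natCast_lt_top i) x).hasDerivAt

/-- value of a derivative -/
noncomputable def ev (hW : ∀ f ∈ W, ContDiff ℝ ∞ f) (i : ℕ) (t : ℝ) : W →ₗ[ℂ] ℂ where
  toFun f := iteratedDeriv i f.1 t
  map_add' f g := iteratedDeriv_add (cda (hW _ f.2) i t) (cda (hW _ g.2) i t)
  map_smul' c f := iteratedDeriv_const_smul (cda (hW _ f.2) i t) c

/-- the usual seminorms -/
structure Sn (W : Submodule ℂ (ℝ → ℂ)) (p : ℕ → Seminorm ℂ W) : Prop where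
  le : ∀ (n : ℕ) (f : W) (i : ℕ) (t : ℝ), i ≤ n → |t| ≤ n → ‖iteratedDeriv i f.1 t‖ ≤ p n f
  ge : ∀ (n : ℕ) (f : W) (B : ℝ),
    (∀ i ≤ n, ∀ t : ℝ, |t| ≤ n → ‖iteratedDeriv i f.1 t‖ ≤ B) → p n f ≤ B

theorem ex_sn (hW : ∀ f ∈ W, ContDiff ℝ ∞ f) : ∃ p, Sn W p := by
  let P : (n : ℕ) → Fin (n + 1) × Set.Icc (-(n : ℝ)) n → Seminorm ℂ W := fun n y =>
    (normSeminorm ℂ ℂ).comp (ev hW y.1 y.2)
  have hb : ∀ n, BddAbove (Set.range (P n)) := fun n =>
    Seminorm.bddAbove_range_iff.2 fun f => by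
      have h : ∀ i : Fin (n + 1), ∃ B, ∀ t ∈ Set.Icc (-(n : ℝ)) n, ‖iteratedDeriv i f.1 t‖ ≤ B :=
        fun i => isCompact_Icc.exists_bound_of_continuousOn ((hW _ f.2).continuous_iteratedDeriv i
          (by exact_mod_cast le_top)).continuousOn
      choose B hB using h
      obtain ⟨D, hD⟩ := (Set.finite_range B).bddAbove
      refine ⟨D, ?_⟩
      rintro _ ⟨y, rfl⟩
      exact (hB y.1 y.2 y.2.2).trans (hD ⟨_, rfl⟩)
  refine ⟨fun n => ⨆ y, P n y, fun n f i t hi ht =>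
    le_ciSup (hb n) (⟨i, by omega⟩, ⟨t, abs_le.1 ht⟩) f, fun n f B h => ?_⟩
  rw [Seminorm.iSup_apply (hb n)]
  have : Nonempty (Set.Icc (-(n : ℝ)) n) := ⟨⟨0, by simp⟩⟩
  exact ciSup_le fun y => h y.1 (Nat.lt_succ_iff.1 y.1.2) y.2 (abs_le.2 y.2.2)

variable {p : ℕ → Seminorm ℂ W}

theorem Sn.mono (h : Sn W p) : Monotone p := fun n m hnm f => h.ge n f _ fun i hi t ht =>
  h.le m f i t (hi.trans hnm) (ht.trans (by exact_mod_cast hnm))

theorem Sn.le0 (h : Sn W p) (n : ℕ) (f : W) {t : ℝ} (ht : |t| ≤ n) : ‖(f : ℝ → ℂ) t‖ ≤ p n f :=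
  h.le n f 0 t n.zero_le ht

theorem Sn.cpl (h : Sn W p) (hW : ∀ f ∈ W, ContDiff ℝ ∞ f)
    (hc : ∀ g, ContDiff ℝ ∞ g →
      (∀ (n : ℕ) (ε : ℝ), 0 < ε → ∃ f ∈ W, ∀ t : ℝ, |t| ≤ n → ‖g t - f t‖ ≤ ε) → g ∈ W) : Cpl p := by
  intro x hx
  let g : ℕ → ℝ → ℂ := fun i t => ∑' k, iteratedDeriv i (x k).1 t
  have ex : ∀ (i : ℕ) (t : ℝ), ∃ n : ℕ, i ≤ n ∧ |t| < n := fun i t => by
    obtain ⟨n, hn⟩ := exists_nat_gt |t|
    exact ⟨max i n, le_max_left _ _, hn.trans_le (by exact_mod_cast le_max_right _ _)⟩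
  have sm : ∀ i t, Summable fun k => iteratedDeriv i (x k).1 t := fun i t => by
    obtain ⟨n, h1, h2⟩ := ex i t
    exact .of_norm_bounded (hx n) fun k => h.le n _ i t h1 h2.le
  have hd : ∀ i t, HasDerivAt (g i) (g (i + 1) t) t := fun i t => by
    obtain ⟨n, h1, h2⟩ := ex (i + 1) t
    exact hasDerivAt_tsum_of_isPreconnected (t := Set.Ioo (-(n : ℝ)) n) (hx n) isOpen_Ioo
      isPreconnected_Ioo (fun k y _ => hda (hW _ (x k).2) i y)
      (fun k y hy => h.le n _ _ y h1 (abs_lt.2 hy).le) (abs_lt.1 h2) (sm i t) (abs_lt.1 h2)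
  have hg : ∀ i, iteratedDeriv i (g 0) = g i := fun i => by
    induction i with
    | zero => rfl
    | succ i ih => rw [iteratedDeriv_succ, ih]; exact funext fun t => (hd i t).deriv
  have g0 : ContDiff ℝ ∞ (g 0) := contDiff_of_differentiable_iteratedDeriv fun i _ t => by
    rw [hg]; exact (hd i t).differentiableAt
  have tl : ∀ (n K i : ℕ) (t : ℝ), i ≤ n → |t| ≤ n →
      ‖g i t - ev hW i t (∑ k ∈ range K, x k)‖ ≤ ∑' k, p n (x (k + K)) := by
    intro n K i t h1 h2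
    rw [map_sum, show g i t = _ from ((sm i t).sum_add_tsum_nat_add K).symm]
    erw [add_sub_cancel_left]
    exact tsum_of_norm_bounded ((summable_nat_add_iff K).2 (hx n)).hasSum
      fun k => h.le n _ i t h1 h2
  have gW : g 0 ∈ W := hc _ g0 fun n ε hε => by
    obtain ⟨K, hK⟩ := ((tendsto_sum_nat_add fun k => p n (x k)).eventually_lt_const hε).exists
    exact ⟨_, (∑ k ∈ range K, x k).2, fun t ht => (tl n K 0 t n.zero_le ht).trans hK.le⟩
  refine ⟨⟨_, gW⟩, fun n => squeeze_zero (fun _ => apply_nonneg _ _)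
    (fun K => h.ge _ _ _ fun i hi t ht => ?_) (tendsto_sum_nat_add fun k => p n (x k))⟩
  have := tl n K i t hi ht
  rw [← hg] at this
  exact le_trans (le_of_eq (congrArg _ ((ev hW i t).map_sub ⟨_, gW⟩ _))) this

theorem Sn.nuc (h : Sn W p) (hW : ∀ f ∈ W, ContDiff ℝ ∞ f) : Nuc p := fun q => by
  refine ⟨q + 3, (q + 3) * (2 * q + 1), by omega, fun M hM =>
    ⟨Fin (q + 3) × Fin (2 * q * M + 1), inferInstance,
      LinearMap.pi fun y => ev hW y.1 ((y.2 : ℕ) / M - q), ?_, fun f hf => ?_⟩⟩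
  · simp only [Fintype.card_prod, Fintype.card_fin, mul_assoc (q + 3)]
    exact Nat.mul_le_mul_left _ (by nlinarith)
  have M0 : (0 : ℝ) < M := by exact_mod_cast hM
  have st : ∀ (i : ℕ) (B : ℝ), i < q + 3 →
      (∀ t : ℝ, |t| ≤ q → ‖iteratedDeriv (i + 1) f.1 t‖ ≤ B) →
      ∀ t : ℝ, |t| ≤ q → ‖iteratedDeriv i f.1 t‖ ≤ B / M := by
    intro i B hi hB t ht
    obtain ⟨h1, h2⟩ := abs_le.1 ht
    have h3 : 0 ≤ (t + q) * M := mul_nonneg (by linarith) M0.le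
    have h4 := Nat.floor_le h3
    have h5 := Nat.lt_floor_add_one ((t + q) * M)
    have h6 : ⌊(t + q) * M⌋₊ < 2 * q * M + 1 := Nat.lt_succ_of_le (Nat.floor_le_of_le (by
      push_cast; gcongr; linarith))
    have h7 : iteratedDeriv i f.1 ((⌊(t + q) * M⌋₊ : ℝ) / M - q) = 0 :=
      congrFun hf (⟨i, hi⟩, ⟨_, h6⟩)
    have h8 : (⌊(t + q) * M⌋₊ : ℝ) / M ≤ t + q := (div_le_iff₀ M0).2 h4
    have h9 : t + q ≤ (⌊(t + q) * M⌋₊ : ℝ) / M + 1 / M := by
      rw [← add_div, le_div_iff₀ M0]; exact h5.le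
    have h10 : 0 ≤ (⌊(t + q) * M⌋₊ : ℝ) / M := by positivity
    have := (convex_Icc (-(q : ℝ)) q).norm_image_sub_le_of_norm_hasDerivWithin_le
      (fun y _ => (hda (hW _ f.2) i y).hasDerivWithinAt) (fun y hy => hB y (abs_le.2 hy))
      (show (⌊(t + q) * M⌋₊ : ℝ) / M - q ∈ _ from ⟨by linarith, by linarith⟩) ⟨h1, h2⟩
    rw [h7, sub_zero, Real.norm_of_nonneg (by linarith)] at this
    refine this.trans ?_
    rw [div_eq_mul_one_div B]
    exact mul_le_mul_of_nonneg_left (by linarith) ((norm_nonneg _).trans (hB t ht))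
  rw [← le_div_iff₀' (by positivity)]
  refine h.ge _ _ _ fun i hi t ht => ?_
  refine (st i _ (by omega) (st (i + 1) _ (by omega) (st (i + 2) _ (by omega) fun y hy =>
    h.le (q + 3) f _ y (by omega) (hy.trans (by push_cast; linarith)))) t ht).trans_eq ?_
  field_simp

theorem iter_real {G : ℂ → ℂ} (hG : Differentiable ℂ G) (i : ℕ) :
    iteratedDeriv i (fun t : ℝ => G t) = fun t : ℝ => iteratedDeriv i G t := by
  induction i with
  | zero => rfl
  | succ i ih =>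
    rw [iteratedDeriv_succ, ih, iteratedDeriv_succ]
    exact funext fun t => ((hG.contDiff.differentiable_iteratedDeriv' i t).hasDerivAt.comp_ofReal
      ).deriv

theorem smooth_real {G : ℂ → ℂ} (hG : Differentiable ℂ G) : ContDiff ℝ ∞ fun t : ℝ => G t :=
  (hG.contDiff.restrict_scalars ℝ).comp Complex.ofRealCLM.contDiff

theorem Sn.cauchy (h : Sn W p) {G : ℂ → ℂ} (hG : Differentiable ℂ G) (f : W)
    (e : (f : ℝ → ℂ) = fun t : ℝ => G t) (n : ℕ) {R B : ℝ} (hR : 1 ≤ R)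
    (hB : ∀ z : ℂ, ‖z‖ ≤ n + 1 → |z.im| ≤ 1 / R → ‖G z‖ ≤ B) :
    p n f ≤ n.factorial * R ^ n * B := by
  have R0 : 0 < 1 / R := by positivity
  have R1 : 1 / R ≤ 1 := (div_le_one (by linarith)).2 hR
  have B0 : 0 ≤ B := (norm_nonneg _).trans (hB 0 (by rw [norm_zero]; positivity) (by simp; linarith))
  refine h.ge _ _ _ fun i hi t ht => ?_
  rw [e, iter_real hG]
  refine (Complex.norm_iteratedDeriv_le_of_forall_mem_sphere_norm_le i R0 hG.diffContOnCl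
    fun z hz => hB z ?_ ?_).trans ?_
  · have := norm_add_le (z - t) (t : ℂ)
    rw [sub_add_cancel, mem_sphere_iff_norm.1 hz, Complex.norm_real, Real.norm_eq_abs] at this
    linarith
  · simpa [mem_sphere_iff_norm.1 hz] using Complex.abs_im_le_norm (z - t)
  · rw [one_div, inv_pow, div_inv_eq_mul, mul_right_comm]
    gcongr

end Pool.Agent.P.MP_2fa38d_an.NB
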