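import Mathlib

/-! Uniform boundedness and the open mapping argument for a sequence of seminorms. -/

set_option autoImplicit false

namespace Pool.Agent.P.MP_2fa38d_an.NB

open Finset Filter Topology

variable {V : Type} [AddCommGroup V] [Module ℂ V]

/-- absolutely convergent series converge -/
def Cpl (p : ℕ → Seminorm ℂ V) : Prop := ∀ x : ℕ → V, (∀ n, Summable fun k => p n (x k)) →
  ∃ y, ∀ n, Tendsto (fun K => p n (y - ∑ k ∈ range K, x k)) atTop (𝓝 0)

theorem sn_sum {ι : Type} (P : Seminorm ℂ V) (s : Finset ι) (x : ι → V) :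
    P (∑ i ∈ s, x i) ≤ ∑ i ∈ s, P (x i) :=
  le_sum_of_subadditive P (map_zero P).le (map_add_le_add P) s x

theorem sn_real (P : Seminorm ℂ V) {t : ℝ} (ht : 0 ≤ t) (x : V) : P ((t : ℂ) • x) = t * P x := by
  rw [map_smul_eq_mul, Complex.norm_real, Real.norm_of_nonneg ht]

theorem geo_le (K : ℕ) : ∑ l ∈ range K, (1 / 2 : ℝ) ^ l ≤ 2 :=
  sum_geometric_two_le K

theorem ub {p : ℕ → Seminorm ℂ V} (hm : Monotone p) (hc : Cpl p) {ι : Type}
    (P : ι → Seminorm ℂ V) (h1 : ∀ i, ∃ (m : ℕ) (C : ℝ), ∀ x, P i x ≤ C * p m x)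
    (h2 : ∀ x, ∃ B, ∀ i, P i x ≤ B) :
    ∃ (m : ℕ) (C : ℝ), 1 ≤ C ∧ ∀ i x, P i x ≤ C * p m x := by
  by_contra hn
  push Not at hn
  choose m C hC using h1
  have st : ∀ (k : ℕ) (s : V × ℕ × ℝ), ∃ (i : ι) (x : V), 1 ≤ s.2.2 →
      s.2.2 * p s.2.1 x ≤ (1 / 2) ^ k ∧ (k : ℝ) ≤ P i (s.1 + x) := by
    intro k ⟨y, M, D⟩
    by_cases hD : 1 ≤ D
    swap
    · obtain ⟨i, x, -⟩ := hn 0 1 le_rfl
      exact ⟨i, x, fun h => absurd h hD⟩
    have k1 : (1 : ℝ) ≤ (k + 1) * 2 ^ k * D :=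
      one_le_mul_of_one_le_of_one_le (one_le_mul_of_one_le_of_one_le (by simp)
        (one_le_pow₀ one_le_two)) hD
    obtain ⟨i, x, hx⟩ := hn M _ k1
    have x0 : 0 < P i x := lt_of_le_of_lt (by positivity) hx
    obtain ⟨z, hz1, hz2⟩ : ∃ z, D * p M z ≤ (1 / 2) ^ k ∧ (k : ℝ) ≤ P i z := by
      refine ⟨(((k + 1) / P i x : ℝ) : ℂ) • x, ?_, ?_⟩
      · rw [sn_real _ (by positivity), one_div, inv_pow, ← one_div, le_div_iff₀ (by positivity)]
        calc D * ((k + 1) / P i x * p M x) * 2 ^ k = (k + 1) * 2 ^ k * D * p M x / P i x := by ring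
          _ ≤ 1 := (div_le_one x0).2 hx.le
      · rw [sn_real _ (by positivity), div_mul_cancel₀ _ x0.ne']
        linarith
    have h3 : 2 * P i z ≤ P i (y + z) + P i (y + -z) := by
      have h4 := map_sub_le_add (P i) (y + z) (y + -z)
      rw [show y + z - (y + -z) = z + z by abel, ← two_smul ℂ, map_smul_eq_mul] at h4
      simpa using h4
    rcases le_total (P i (y + z)) (P i (y + -z)) with h | h
    · exact ⟨i, -z, fun _ => ⟨by rwa [map_neg_eq_map], by linarith⟩⟩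
    · exact ⟨i, z, fun _ => ⟨hz1, by linarith⟩⟩
  choose I X hX using st
  let s : ℕ → V × ℕ × ℝ := fun k => Nat.rec (0, 0, 1)
    (fun k s => (s.1 + X k s, max s.2.1 (m (I k s)) + 1, max s.2.2 (C (I k s)))) k
  have e1 : ∀ k, (s (k + 1)).1 = (s k).1 + X k (s k) := fun _ => rfl
  have e2 : ∀ k, (s (k + 1)).2.1 = max (s k).2.1 (m (I k (s k))) + 1 := fun _ => rfl
  have e3 : ∀ k, (s (k + 1)).2.2 = max (s k).2.2 (C (I k (s k))) := fun _ => rfl
  have m2 : StrictMono fun k => (s k).2.1 := strictMono_nat_of_lt_succ fun k => by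
    rw [e2]; omega
  have m3 : Monotone fun k => (s k).2.2 := monotone_nat_of_le_succ fun k => by
    rw [e3]; exact le_max_left _ _
  have d1 : ∀ k, 1 ≤ (s k).2.2 := fun k => m3 (Nat.zero_le k)
  have e4 : ∀ k, (s k).1 = ∑ l ∈ range k, X l (s l) := fun k => by
    induction k with
    | zero => rfl
    | succ k ih => rw [e1, sum_range_succ, ih]
  have b : ∀ (n l : ℕ) (D : ℝ), n ≤ (s l).2.1 → D ≤ (s l).2.2 →
      D * p n (X l (s l)) ≤ (1 / 2) ^ l := fun n l D h h' =>
    le_trans (mul_le_mul h' (hm h _) (apply_nonneg _ _) (zero_le_one.trans (d1 l)))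
      (hX l (s l) (d1 l)).1
  obtain ⟨y, hy⟩ := hc (fun l => X l (s l)) fun n => by
    refine (summable_nat_add_iff n).1 (Summable.of_nonneg_of_le (fun _ => apply_nonneg _ _)
      (fun l => ?_) ((summable_nat_add_iff n).2 summable_geometric_two))
    simpa using b n (l + n) 1 ((Nat.le_add_left n l).trans (m2.id_le _)) (d1 _)
  obtain ⟨B, hB⟩ := h2 y
  obtain ⟨k, hk⟩ := exists_nat_gt (B + 2)
  set i := I k (s k)
  have h5 : ∀ K, (k : ℝ) ≤ B + C i * p (m i) (y - ∑ l ∈ range (k + 1 + K), X l (s l)) + 2 := by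
    intro K
    have h6 := (hX k (s k) (d1 k)).2
    rw [← e1, e4 (k + 1)] at h6
    have h7 : P i (∑ l ∈ range K, X (k + 1 + l) (s (k + 1 + l))) ≤ 2 := by
      refine (sn_sum _ _ _).trans (le_trans (sum_le_sum fun l _ => ?_) (geo_le K))
      refine (hC i _).trans ((b _ _ _ ?_ ?_).trans (pow_le_pow_of_le_one (by norm_num)
        (by norm_num) (by omega)))
      · exact ((le_max_right _ _).trans (Nat.le_succ _)).trans
          ((e2 k).symm.le.trans (m2.monotone (Nat.le_add_right (k + 1) l)))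
      · exact (le_max_right _ _).trans ((e3 k).symm.le.trans (m3 (Nat.le_add_right (k + 1) l)))
    have h8 : ∑ l ∈ range (k + 1), X l (s l) = y - (y - ∑ l ∈ range (k + 1 + K), X l (s l)) -
        ∑ l ∈ range K, X (k + 1 + l) (s (k + 1 + l)) := by
      rw [sum_range_add _ (k + 1) K]; abel
    rw [h8] at h6
    linarith [map_sub_le_add (P i) (y - (y - ∑ l ∈ range (k + 1 + K), X l (s l)))
      (∑ l ∈ range K, X (k + 1 + l) (s (k + 1 + l))), hB i,
      map_sub_le_add (P i) y (y - ∑ l ∈ range (k + 1 + K), X l (s l)),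
      hC i (y - ∑ l ∈ range (k + 1 + K), X l (s l))]
  have h9 := ((((hy (m i)).comp (tendsto_add_atTop_nat (k + 1))).const_mul (C i)).const_add
    B).add_const 2
  have := ge_of_tendsto' h9 fun K => by simpa [add_comm K] using h5 K
  linarith

end Pool.Agent.P.MP_2fa38d_an.NB
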